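import Pool.Agent.Helper29.CY.OneD

/-!
# Project CY: assembly
-/

set_option autoImplicit false

open Module

namespace Pool.Agent.Helper29.CY.Asm

open Pool.Agent.Helper29.CY Pool.Agent.Helper29.CY.One

theorem conf_le_six (hLA : S_LA) (hBAS : S_BAS) (hNBR : S_NBR) (hSAM : S_SAM) (hDIF : S_DIF)
    (hONE : S_ONE) (hNRA : S_NRA) (n : ℕ) (V : Type) [NormedAddCommGroup V]
    [InnerProductSpace ℝ V] (N : Fin n → Submodule ℝ V) (u : Fin n → V) (h : Conf N u) :
    n ≤ 6 := by
  by_cases h1 : ∃ i k k' : Fin n, Arr N u i k ∧ Arr N u i k' ∧ k ≠ k'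
  · obtain ⟨i, k, k', hk, hk', hkk⟩ := h1
    by_cases h2 : ∃ l l' : Fin n, Arr N u i l ∧ Arr N u i l' ∧ l ≠ l' ∧ N l = N l'
    · obtain ⟨l, l', hl, hl', hll, hN⟩ := h2
      exact hSAM n V N u h i l l' hl hl' hll hN
    · have hT : ∀ l l' : Fin n, Arr N u i l → Arr N u i l' → l ≠ l' → N l ≠ N l' :=
        fun l l' hl hl' hll hN => h2 ⟨l, l', hl, hl', hll, hN⟩
      have hN : N k ≠ N k' := hT k k' hk hk' hkk
      have hnr : NR N k k' := (hNBR n V N u h).1 i k k' hk hk' hkk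
      have hdim : finrank ℝ ↥(N k ⊓ N k') = 2 :=
        le_antisymm (hLA.2.1 V (N k) (N k') (h.dim k) (h.dim k') hN) hnr
      obtain ⟨w, hw, hwn, hew, hsp⟩ := hLA.2.2.1 V (N k ⊓ N k') (u i) hdim ⟨hk.2.1, hk'.2.1⟩
        (h.nrm i)
      have e1 : inner ℝ (u k) (u i) = 0 := by rw [real_inner_comm]; exact hk.2.2.1
      have e2 : inner ℝ (u k') (u i) = 0 := by rw [real_inner_comm]; exact hk'.2.2.1
      rcases (hBAS n V N u h k k' hkk).2.2.2.1 (u i) w (h.nrm i) hwn hew hsp e1 e2 with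
        ⟨h3, -⟩ | ⟨h3, -⟩
      · have h4 : u k ∈ N k' := by
          rcases h3 with h3 | h3
          · rw [h3]; exact hw.2
          · rw [h3]; exact Submodule.neg_mem _ hw.2
        exact hDIF n V N u h i k k' hk hk' hkk hN h4 hT
      · have h4 : u k' ∈ N k := by
          rcases h3 with h3 | h3
          · rw [h3]; exact hw.1
          · rw [h3]; exact Submodule.neg_mem _ hw.1
        exact hDIF n V N u h i k' k hk' hk hkk.symm hN.symm h4 hT
  · have hout : ∀ i k k' : Fin n, Arr N u i k → Arr N u i k' → k = k' := by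
      intro i k k' hk hk'
      by_contra hne
      exact h1 ⟨i, k, k', hk, hk', hne⟩
    by_cases h2 : ∃ i k : Fin n, Arr N u i k
    · obtain ⟨i, k, hk⟩ := h2
      exact hONE n V N u h hout i k hk
    · refine hNRA n V N u h fun i k => ?_
      by_cases hik : i = k
      · subst hik
        show 2 ≤ finrank ℝ ↥(N i ⊓ N i)
        rw [inf_idem, h.dim i]
        norm_num
      · rcases tri hBAS h hik with h3 | h3 | h3
        · exact h3
        · exact absurd ⟨i, k, h3⟩ h2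
        · exact absurd ⟨k, i, h3⟩ h2

open Pool.Agent.Helper80.KC in
theorem all_j (hGEO : S_GEO) (hSEL : S_SEL)
    (h6 : ∀ (n : ℕ) (V : Type) [NormedAddCommGroup V] [InnerProductSpace ℝ V]
      (N : Fin n → Submodule ℝ V) (u : Fin n → V), Conf N u → n ≤ 6) :
    ∀ (j k : ℕ) (C : Fin k → Set (E (3 + j))), (∀ i, IsCylinder j (C i) ∧ Touches (C i)) →
      (∀ i i', i ≠ i' → Disjoint (interior (C i)) (interior (C i'))) → 13 ≤ k →
      {i | ∃ i', C i' = Pool.Agent.Helper29.CC.antipode (C i)}.ncard ≤ 10 := by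
  intro j
  refine hSEL j ?_
  intro n C hC h1 h2
  obtain ⟨N, u, h⟩ := hGEO j n C hC h1 h2
  exact h6 n _ N u h

end Pool.Agent.Helper29.CY.Asm
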