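import Pool.Agent.Helper29.CY.Asm
import Pool.Agent.Helper25.CY.LA
import Pool.Agent.Helper45.CY.HEX
import Pool.Agent.Helper71.CY.PL3
import Pool.Agent.Helper93.CY.BAS
import Pool.Agent.Helper91.CY.NBR
import Pool.Agent.Helper15.CY.ELL
import Pool.Agent.Helper23.CY.SAM
import Pool.Agent.Helper22.CY.DIF
import Pool.Agent.Helper78.CY.NRA
import Pool.Agent.Helper79.CY.GEO
import Pool.Agent.Helper57.CY.SEL

/-!
# Project CY: the theorem
-/

set_option autoImplicit false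

namespace Pool.Agent.Helper29.CY.Final

open Pool.Agent.Helper29.CY Pool.Agent.Helper80.KC

theorem nbr : S_NBR :=
  Pool.Agent.Helper91.CY.NBR.t Pool.Agent.Helper25.CY.LA.t Pool.Agent.Helper45.CY.HEX.t
    Pool.Agent.Helper93.CY.BAS.t

theorem ell : S_ELL :=
  Pool.Agent.Helper15.CY.ELL.t Pool.Agent.Helper25.CY.LA.t Pool.Agent.Helper93.CY.BAS.t nbr

theorem all_j : ∀ (j k : ℕ) (C : Fin k → Set (E (3 + j))),
    (∀ i, IsCylinder j (C i) ∧ Touches (C i)) →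
      (∀ i i', i ≠ i' → Disjoint (interior (C i)) (interior (C i'))) → 13 ≤ k →
      {i | ∃ i', C i' = Pool.Agent.Helper29.CC.antipode (C i)}.ncard ≤ 10 :=
  Asm.all_j Pool.Agent.Helper79.CY.GEO.t Pool.Agent.Helper57.CY.SEL.t
    (Asm.conf_le_six Pool.Agent.Helper25.CY.LA.t Pool.Agent.Helper93.CY.BAS.t nbr
      (Pool.Agent.Helper23.CY.SAM.t Pool.Agent.Helper25.CY.LA.t Pool.Agent.Helper71.CY.PL3.t
        Pool.Agent.Helper93.CY.BAS.t nbr ell)
      (Pool.Agent.Helper22.CY.DIF.t Pool.Agent.Helper25.CY.LA.t Pool.Agent.Helper71.CY.PL3.t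
        Pool.Agent.Helper93.CY.BAS.t nbr ell)
      (One.one Pool.Agent.Helper25.CY.LA.t Pool.Agent.Helper45.CY.HEX.t
        Pool.Agent.Helper71.CY.PL3.t Pool.Agent.Helper93.CY.BAS.t nbr ell)
      (Pool.Agent.Helper78.CY.NRA.t Pool.Agent.Helper25.CY.LA.t Pool.Agent.Helper93.CY.BAS.t))

end Pool.Agent.Helper29.CY.Final
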