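import Pool.Agent.Helper29.CC.Main

/-!
# Project CY (MP_eaa1a7_co), goals: centrally symmetric families of `j`-cylinders, all `j`

Every goal is a `Prop`, its complete proof is in the doc-string.  A packet may use the other goals it
names as hypotheses `(h : S_XX)`.

Notation in the proofs: `N_i` for `N i`, `u_i` for `u i`, `<a, b>` for the span, `i -> k` for
`Arr N u i k` (then `N_i ∩ N_k = R u_i` and `u_k ⟂ u_i`), `NR l m` for `dim (N_l ∩ N_m) >= 2`.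
-/

set_option autoImplicit false

open Module

namespace Pool.Agent.Helper29.CY

section

variable {n : ℕ} {V : Type} [NormedAddCommGroup V] [InnerProductSpace ℝ V]

/-- configurations: `N i` is the normal 3-space of the `i`-th axis, `2 u_i` its point closest to the
origin; the axes `i`, `k` and the axes `i`, `-k` are at distance at least `2` -/
structure Conf (N : Fin n → Submodule ℝ V) (u : Fin n → V) : Prop where
  dim : ∀ i, finrank ℝ (N i) = 3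
  mem : ∀ i, u i ∈ N i
  nrm : ∀ i, ‖u i‖ = 1
  sep : ∀ i k, i ≠ k → ∃ f ∈ N i ⊓ N k, ‖f‖ = 1 ∧ 1 ≤ |inner ℝ (u i - u k) f|
  sep' : ∀ i k, i ≠ k → ∃ f ∈ N i ⊓ N k, ‖f‖ = 1 ∧ 1 ≤ |inner ℝ (u i + u k) f|

/-- the normal spaces meet in dimension at least two -/
def NR (N : Fin n → Submodule ℝ V) (i k : Fin n) : Prop := 2 ≤ finrank ℝ ↥(N i ⊓ N k)

/-- rigid pair with source `i`: the normal spaces meet in the line of `u_i`, and `u_k ⟂ u_i` -/
def Arr (N : Fin n → Submodule ℝ V) (u : Fin n → V) (i k : Fin n) : Prop :=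
  i ≠ k ∧ u i ∈ N k ∧ inner ℝ (u i) (u k) = 0 ∧ N i ⊓ N k ≤ Submodule.span ℝ {u i}

/-- `u_l` lies in the plane `N_k ∩ u_k^⊥` -/
def InE (N : Fin n → Submodule ℝ V) (u : Fin n → V) (k l : Fin n) : Prop :=
  u l ∈ N k ∧ inner ℝ (u l) (u k) = 0

/-- frame of a member `l` that is non-rigid with both `i` and `k`, where `i -> k` -/
structure Frame (N : Fin n → Submodule ℝ V) (u : Fin n → V) (i k l : Fin n) (x y : V) : Prop where
  xi : x ∈ N i
  xl : x ∈ N l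
  yk : y ∈ N k
  yl : y ∈ N l
  xn : ‖x‖ = 1
  yn : ‖y‖ = 1
  ex : inner ℝ (u i) x = 0
  ey : inner ℝ (u i) y = 0
  el : u i ∈ N l
  li : N l ⊓ N i ≤ Submodule.span ℝ {u i, x}
  lk : N l ⊓ N k ≤ Submodule.span ℝ {u i, y}
  sp : N l ≤ Submodule.span ℝ {u i, x, y}

/-- first kind: `u_l` is in `<u_i, y>` and `u_k ⟂ y` -/
def L0 (N : Fin n → Submodule ℝ V) (u : Fin n → V) (i k l : Fin n) (x y : V) : Prop :=
  Frame N u i k l x y ∧ inner ℝ (u k) y = 0 ∧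
    u l = inner ℝ (u l) (u i) • u i + inner ℝ (u l) y • y

/-- second kind: `|u_k . y| - |u_l . y| >= sqrt (1 - (u_l . u_i)^2)` -/
def L1 (N : Fin n → Submodule ℝ V) (u : Fin n → V) (i k l : Fin n) (x y : V) : Prop :=
  Frame N u i k l x y ∧ |inner ℝ (u l) y| < |inner ℝ (u k) y| ∧
    1 - inner ℝ (u l) (u i) ^ 2 ≤ (|inner ℝ (u k) y| - |inner ℝ (u l) y|) ^ 2

end

/-- **LA** (linear algebra).  (1) two subspaces of dimension `>= 2` of a 3-space share a unit vector;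
(2) two different 3-spaces meet in dimension `<= 2`; (3) orthonormal basis of a plane through a given
unit vector; (4) if two subspaces of dimension `>= 2` of a 3-space meet in dimension `<= 1` they span
it.  All from `Submodule.finrank_sup_add_finrank_inf_eq`, `Submodule.eq_of_le_of_finrank_le`. -/
def S_LA : Prop :=
  (∀ (V : Type) [NormedAddCommGroup V] [InnerProductSpace ℝ V] (W P Q : Submodule ℝ V),
    finrank ℝ W = 3 → P ≤ W → Q ≤ W → 2 ≤ finrank ℝ P → 2 ≤ finrank ℝ Q →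
      ∃ q ∈ P ⊓ Q, ‖q‖ = 1) ∧
  (∀ (V : Type) [NormedAddCommGroup V] [InnerProductSpace ℝ V] (P Q : Submodule ℝ V),
    finrank ℝ P = 3 → finrank ℝ Q = 3 → P ≠ Q → finrank ℝ ↥(P ⊓ Q) ≤ 2) ∧
  (∀ (V : Type) [NormedAddCommGroup V] [InnerProductSpace ℝ V] (P : Submodule ℝ V) (e : V),
    finrank ℝ P = 2 → e ∈ P → ‖e‖ = 1 →
      ∃ y ∈ P, ‖y‖ = 1 ∧ inner ℝ e y = 0 ∧ P ≤ Submodule.span ℝ {e, y}) ∧
  (∀ (V : Type) [NormedAddCommGroup V] [InnerProductSpace ℝ V] (W P Q : Submodule ℝ V),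
    finrank ℝ W = 3 → P ≤ W → Q ≤ W → 2 ≤ finrank ℝ P → 2 ≤ finrank ℝ Q →
      finrank ℝ ↥(P ⊓ Q) ≤ 1 → W ≤ P ⊔ Q)

/-- **HEX** (hexagon lemma).  Among three vectors `p1, p2, p3` of the closed unit disc such that
`|p_a - p_b| >= 1` and `|p_a + p_b| >= 1` for all pairs, two non-unit vectors cannot occur.

Proof.  Let `x, y, z` be the squared lengths, `X = 1-x > 0`, `Y = 1-y > 0`, `Z = 1-z >= 0`, `c = p1.p2`,
`b = p1.p3`, `a = p2.p3`.  The hypotheses say `2|c| <= x+y-1 = 2C`, `2|b| <= x+z-1 = 2B`,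
`2|a| <= y+z-1 = 2A` (so `A, B, C >= 0`).  In the plane the Gram determinant vanishes (`ring` in
coordinates): `xyz + 2abc = x a^2 + y b^2 + z c^2`.  Hence `xyz <= x A^2 + y B^2 + z C^2 + 2ABC`.  But
`xyz - x A^2 - y B^2 - z C^2 - 2ABC = 3/4 (X(B+C) + Y(A+C) + Z(A+B)) - XYC - YZA - XZB + XYZ`
(`ring` after substituting `A = (1-Y-Z)/2` etc.), and `XYC <= (X+Y)/2 C` etc., so it is at least
`1/4 (C(X+Y) + A(Y+Z) + B(X+Z)) + XYZ`, a sum of nonnegative terms which is `<= 0`: `C = 0` (as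
`X+Y > 0`), `A = 0` (as `Y > 0`), `B = 0` (as `X > 0`), so `X = Y = Z = 1/2` and `XYZ = 1/8 > 0`,
contradiction. -/
def S_HEX : Prop := ∀ a1 b1 a2 b2 a3 b3 : ℝ,
  a1 ^ 2 + b1 ^ 2 < 1 → a2 ^ 2 + b2 ^ 2 < 1 → a3 ^ 2 + b3 ^ 2 ≤ 1 →
  1 ≤ (a1 - a2) ^ 2 + (b1 - b2) ^ 2 → 1 ≤ (a1 + a2) ^ 2 + (b1 + b2) ^ 2 →
  1 ≤ (a1 - a3) ^ 2 + (b1 - b3) ^ 2 → 1 ≤ (a1 + a3) ^ 2 + (b1 + b3) ^ 2 →
  1 ≤ (a2 - a3) ^ 2 + (b2 - b3) ^ 2 → 1 ≤ (a2 + a3) ^ 2 + (b2 + b3) ^ 2 → False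

/-- **PL3** (at most three lines in a plane with mutual angles `>= 60` degrees).

Proof.  Let `e, y` be an orthonormal basis of `E` (`LA (3)` or `stdOrthonormalBasis`), `u_j = a_j e + b_j y`,
`a_j^2 + b_j^2 = 1`.  With `c_j = a_j^2 - b_j^2`, `d_j = 2 a_j b_j` one has
`c_j c_k + d_j d_k = 2 <u_j, u_k>^2 - 1`, which is `1` for `j = k` and `<= -1/2` for `j ≠ k`.  So
`0 <= (sum c_j)^2 + (sum d_j)^2 <= m - m (m-1)/2`, `m = s.card`, and `m <= 3`. -/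
def S_PL3 : Prop := ∀ (V : Type) [NormedAddCommGroup V] [InnerProductSpace ℝ V] (ι : Type)
  (E : Submodule ℝ V) (u : ι → V) (s : Finset ι), finrank ℝ E = 2 → (∀ i ∈ s, u i ∈ E) →
  (∀ i ∈ s, ‖u i‖ = 1) → (∀ i ∈ s, ∀ k ∈ s, i ≠ k → |inner ℝ (u i) (u k)| ≤ 1 / 2) → s.card ≤ 3

/-- **BAS** (basic facts).

Proof.  (HALF) `1 <= |<u_i - u_k, f>| <= |u_i - u_k|`, so `1 <= 2 - 2 <u_i, u_k>`; the same with `+`.
(LINE) the `f` of `sep`, `sep'` are `c w`, `|c| = 1`: `|a - b| >= 1`, `|a + b| >= 1` for `a = <u_i, w>`,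
`b = <u_k, w>`, `|a|, |b| <= 1`.
(PI) `f = c e + d y`, `c^2 + d^2 = 1`, `<u_i - u_k, f> = c (..) + d (..)`, Cauchy-Schwarz.
(COL) `(PI)`-like: `f = c e + d w`, `<u_i - u_k, f> = d <u_i - u_k, w>`: as in LINE, and
`|<u_i, w>| = 1` gives `u_i = w` or `u_i = -w`.
(TRI) `i ≠ k`: if `dim (N_i ∩ N_k) <= 1` it is `<= span {w}`, `w` the unit vector `f` of `sep`; LINE; if
`|<u_i, w>| = 1` then `w = ± u_i`, so `u_i ∈ N_k`, `<u_i, u_k> = 0`, `N_i ∩ N_k <= span {u_i}`: `Arr i k`.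
(EXC) `Arr i k`: the dimension of `N_i ∩ N_k <= span {u_i}` is at most one; if also `Arr k i` then
`u_k ∈ N_k ∩ N_i`, so `u_k = c u_i`, and `<u_i, u_k> = 0` gives `u_k = 0`. -/
def S_BAS : Prop := ∀ (n : ℕ) (V : Type) [NormedAddCommGroup V] [InnerProductSpace ℝ V]
  (N : Fin n → Submodule ℝ V) (u : Fin n → V), Conf N u → ∀ i k : Fin n, i ≠ k →
  |inner ℝ (u i) (u k)| ≤ 1 / 2 ∧
  (∀ w : V, ‖w‖ = 1 → N i ⊓ N k ≤ Submodule.span ℝ {w} →
    (|inner ℝ (u i) w| = 1 ∧ inner ℝ (u k) w = 0) ∨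
      (inner ℝ (u i) w = 0 ∧ |inner ℝ (u k) w| = 1)) ∧
  (∀ e y : V, ‖e‖ = 1 → ‖y‖ = 1 → inner ℝ e y = 0 → N i ⊓ N k ≤ Submodule.span ℝ {e, y} →
    1 ≤ (inner ℝ (u i) e - inner ℝ (u k) e) ^ 2 + (inner ℝ (u i) y - inner ℝ (u k) y) ^ 2 ∧
    1 ≤ (inner ℝ (u i) e + inner ℝ (u k) e) ^ 2 + (inner ℝ (u i) y + inner ℝ (u k) y) ^ 2) ∧
  (∀ e w : V, ‖e‖ = 1 → ‖w‖ = 1 → inner ℝ e w = 0 → N i ⊓ N k ≤ Submodule.span ℝ {e, w} →
    inner ℝ (u i) e = 0 → inner ℝ (u k) e = 0 →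
    ((u i = w ∨ u i = -w) ∧ inner ℝ (u k) w = 0) ∨
      ((u k = w ∨ u k = -w) ∧ inner ℝ (u i) w = 0)) ∧
  (NR N i k ∨ Arr N u i k ∨ Arr N u k i) ∧
  (Arr N u i k → ¬ NR N i k ∧ ¬ Arr N u k i)

/-- **NBR** (neighbours).

Proof.  Use `BAS`.  `NR`, `Conf` are symmetric facts; write `e = u_i`.
(TGT) `i -> k`, `i -> k'`, `k ≠ k'`: if not `NR k k'` then say `k -> k'` (or the reverse): `e ∈ N_k ∩ N_k'`
is a multiple of `u_k`, but `<e, u_k> = 0`.
(SRC) `i -> k`, `m -> k`, `i ≠ m`: if `i -> m` then `u_i ∈ N_m ∩ N_k <= span {u_m}`, but `<u_i, u_m> = 0`;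
the same if `m -> i`.
(MEM) `i -> k`, `NR l i`, `NR l k`: `N_l ∩ N_i` and `N_l ∩ N_k` are subspaces of dimension `>= 2` of
`N_l`, so they share a unit vector `q ∈ N_i ∩ N_k <= span {u_i}`: `q = ± u_i`, so `u_i ∈ N_l`.
(INN) `i -> k`, `m -> i`, `m' -> i`, `m ≠ m'`, `NR m k`, `NR m' k` is impossible: `f = u_m`, `f' = u_m'`,
`N_m ∩ N_i = R f`, `N_m' ∩ N_i = R f'`, `f, f' ⟂ e`, `|<f, f'>| <= 1/2`.  By SRC `NR m m'`, and
`N_m ≠ N_m'` (else `f' ∈ N_m ∩ N_i`), so `P = N_m ∩ N_m'` has dimension 2 and `W = N_m + N_m'` has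
dimension 4.  `e ∉ W`: otherwise `N_i = <e, f, f'> <= W` and `dim (N_i ∩ N_m) >= 2`.  Let
`P1 = N_m ∩ N_k`, `P2 = N_m' ∩ N_k` (dimension `>= 2`).  If `dim (P1 ∩ P2) <= 1` then
`N_k = P1 + P2 <= W` by `LA (4)`, but `e ∈ N_k`.  So `dim (P1 ∩ P2) >= 2`, `P1 ∩ P2 <= P`, hence
`P <= N_k` and `P = N_m ∩ N_k = N_m' ∩ N_k` (both have dimension `<= 2`: if `N_m = N_k` then
`e ∈ N_m ∩ N_i`).  With an orthonormal basis of `P` the projections of `u_m, u_m', u_k` to `P` satisfy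
the hypotheses of `HEX` pairwise (PI), so one of the projections of `u_m`, `u_m'` is a unit vector, say
(the other case is the same) that of `u_m`: then `f = u_m ∈ P <= N_m'`, so `f ∈ N_m' ∩ N_i = R f'`,
contradiction.
(OUT) `m -> i`, `m' -> i`, `m ≠ m'`, `k -> m`, `k -> m'` is impossible: `u_k ∈ P = N_m ∩ N_m'`, of
dimension 2 as above, `P <= span {u_k, w}` (LA (3)), `u_m, u_m' ⟂ u_k`: by COL one of `u_m`, `u_m'` is
`± w ∈ P`, so say `u_m ∈ N_m' ∩ N_i = R u_m'`, contradiction. -/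
def S_NBR : Prop := ∀ (n : ℕ) (V : Type) [NormedAddCommGroup V] [InnerProductSpace ℝ V]
  (N : Fin n → Submodule ℝ V) (u : Fin n → V), Conf N u →
  (∀ i k k' : Fin n, Arr N u i k → Arr N u i k' → k ≠ k' → NR N k k') ∧
  (∀ i m k : Fin n, Arr N u i k → Arr N u m k → i ≠ m → NR N i m) ∧
  (∀ i k l : Fin n, Arr N u i k → NR N l i → NR N l k → u i ∈ N l) ∧
  (∀ i k m m' : Fin n, Arr N u i k → Arr N u m i → Arr N u m' i → m ≠ m' → NR N m k →
    NR N m' k → False) ∧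
  (∀ i k m m' : Fin n, Arr N u m i → Arr N u m' i → m ≠ m' → Arr N u k m → Arr N u k m' → False)

/-- **ELL** (members non-rigid with both ends of a rigid pair).

Proof.  `e = u_i ∈ N_l` (MEM).  `N_l ≠ N_i`, `N_l ≠ N_k` (as `dim (N_i ∩ N_k) <= 1`), so `N_l ∩ N_i`
and `N_l ∩ N_k` have dimension exactly 2 and contain `e`; `LA (3)` gives `x`, `y`; their intersection is
in `N_i ∩ N_k <= span {e}`, so `N_l` is their sum (`LA (4)`): `Frame`.  Let `α = <u_l, e>`,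
`η = <u_l, y>`, `κ = <u_k, y>`; `|α| <= 1/2` (HALF), `<u_k, e> = 0`.  (PI) for `(l, k)` and `e, y`:
`α^2 + (η - κ)^2 >= 1`, `α^2 + (η + κ)^2 >= 1`, so `α^2 + (|η| - |κ|)^2 >= 1`.  Bessel: `α^2 + η^2 <= 1`.
If `|κ| <= |η|`: `(|η| - |κ|)^2 <= η^2`, so `α^2 + η^2 = 1` and `(|η| - |κ|)^2 = η^2`, `|η| >= 1/2`, so
`κ = 0`; and `|u_l - α e - η y|^2 = 1 - α^2 - η^2 = 0`: `L0`.  Otherwise `L1`. -/
def S_ELL : Prop := ∀ (n : ℕ) (V : Type) [NormedAddCommGroup V] [InnerProductSpace ℝ V]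
  (N : Fin n → Submodule ℝ V) (u : Fin n → V), Conf N u →
  ∀ i k l : Fin n, Arr N u i k → NR N l i → NR N l k →
    ∃ x y : V, L0 N u i k l x y ∨ L1 N u i k l x y

/-- **SAM** (two targets with the same normal space).  If `i -> k`, `i -> k'`, `k ≠ k'`, `N_k = N_k'` then
`n <= 6`.

Proof.  `e = u_i`, `M = N_k ∩ e^⊥` (a plane), `u_k, u_k' ∈ M`.
(a) nobody has `k -> m`: `N_k ∩ N_m = N_k' ∩ N_m <= span {u_k}` is a line, so by TRI for `(k', m)`
`u_k' ∈ R u_k` or `u_m ∈ R u_k` and both are impossible (HALF).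
(b) nobody with `NR l i` has `l -> k`: `N_l ∩ N_k' = N_l ∩ N_k <= span {u_l}`, `u_l ∈ N_k`, so by TRI
for `(l, k')` (it is not `NR`; `k' -> l` is excluded as in (a)) also `<u_l, u_k'> = 0`; `e, u_k, u_k'`
span `N_k` (`u_k, u_k' ⟂ e` are not parallel), `u_l ∈ N_k` is orthogonal to `u_k, u_k'`, so
`u_l = ± e`, contradiction to HALF.
(c) if `i -> l`, `l ≠ k, k'` then `N_l = N_k`: otherwise `NR k l` (TGT), `N_k ∩ N_l = <e, w>`,
COL for `(k, l)` and for `(k', l)` (`u_k, u_k', u_l ⟂ e`): if `u_k = ± w` then `<u_l, w> = 0`, so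
`u_l ≠ ± w` and COL for `(k', l)` gives `u_k' = ± w = ± u_k`, contradiction; so `u_l = ± w` and
`u_k, u_k' ⟂ w, e` in the 3-space `N_k`: `u_k = ± u_k'`, contradiction.
So let `S = {l ≠ k, k' : i -> l}` (then `u_l ∈ M`), `C = {l : l -> i}`, `B = {l ≠ i, k : NR l i, NR l k}`.
By TRI (and (a), (b), SRC: not `l -> i` and `l -> k`) every index is `i`, `k`, `k'` or in `S`, `C`, `B`, and
`l ∈ C` has `NR l k` (by (a), SRC).  `|C| <= 1` by INN.  `|S| <= 1` by PL3 in the plane `M`.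
For `l ∈ B`: `NR l k'` as `N_k = N_k'`.  ELL for `(i, k, l)`: `x, y`; `y ∈ M`; the frame also serves for
`(i, k', l)`: from (PI) for `(l, k')`, `e, y`, as in the proof of ELL, with `κ' = <u_k', y>`: (`κ' = 0` and
`u_l ∈ <e, y>`) or (`|η| < |κ'|` and `1 - α^2 <= (|κ'| - |η|)^2`); `|κ|, |κ'| <= 1`, `1 - α^2 >= 3/4`.
If `κ = 0` (L0, `η^2 = 1 - α^2 >= 3/4`): `κ' = 0` is impossible (`y ⟂ u_k, u_k', e` in `N_k`), and
`|κ'| >= |η| + sqrt 3/2 >= sqrt 3 > 1` is impossible; the same with `k`, `k'` exchanged; so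
`|κ|, |κ'| >= sqrt 3/2 + |η|`.  In the plane `M` (orthonormal basis `y, y'`): `u_k = κ y + s y'`,
`u_k' = κ' y + s' y'`, `s^2, s'^2 <= 1/4`, `|κ κ'| >= 3/4`, `|s s'| <= 1/4`,
`1/2 >= |<u_k, u_k'>| >= |κ κ'| - |s s'| >= 1/2`: equality, so `κ^2 = κ'^2 = 3/4`, `η = 0`, and
`<u_k, u_k'>`, `κ κ'` have the same sign.
(d) if `S ≠ ∅`, `l'' ∈ S`: the same for `k''=l''` (`N_l'' = N_k`): `κ''^2 = 3/4`, `s, s', s'' = ± 1/2`; two of
the three products `κ s`, .. have the same sign, then those two vectors are `±` equal,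
contradiction.  So `S ≠ ∅` implies `B = ∅`, and `n <= 3 + 1 + 1`.
(e) `S = ∅`: `|B| <= 2`.  For `l ∈ B`: `η = 0`, `1 - α^2 <= 3/4`, so `α^2 = 1/4`; the line of `y` is the
same for all `l ∈ B` (`y = ± Y`: `κ, κ'` determine `y` up to sign as `u_k, u_k'` span `M`:
`<u_k, y>`, `<u_k', y>` are `± sqrt 3/2` with product of the sign of `<u_k, u_k'>`).  Two members
`l ≠ m` of `B`: if `N_l ≠ N_m` and `x_m ≠ ± x_l` then `N_l ∩ N_m <= <e, y>` and PI gives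
`1 <= (α_l ± α_m)^2 + 0` for both signs, contradiction to `α^2 = 1/4`; so `x_m = ± x_l =: ± X`, and
`u_l ∈ <e, X, y>`, `<u_l, y> = 0` gives `u_l ∈ <e, X>` for all `l ∈ B`.  PL3 in the plane `<e, X>` for `i`
and `B`: `|B| + 1 <= 3`.  So `n <= 3 + 0 + 1 + 2 = 6`. -/
def S_SAM : Prop := ∀ (n : ℕ) (V : Type) [NormedAddCommGroup V] [InnerProductSpace ℝ V]
  (N : Fin n → Submodule ℝ V) (u : Fin n → V), Conf N u →
  ∀ i k k' : Fin n, Arr N u i k → Arr N u i k' → k ≠ k' → N k = N k' → n ≤ 6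

/-- **DIF** (two targets with different normal spaces).  Hypotheses: `i -> k`, `i -> k'`, `u_k ∈ N_k'`,
`N_k ≠ N_k'`, and all targets of `i` have different normal spaces.  Then `n <= 6`.

Proof.  `e = u_i`.  `<u_k, u_k'> = 0`: `N_k ∩ N_k'` is a plane (TGT) containing `e, u_k`, so
`= <e, u_k>`; COL with `w = u_k`: `<u_k', u_k> = 0` (the other alternative `u_k' = ± u_k` is impossible).
So `N_k' = <e, u_k, u_k'>`, orthonormal.  Let `y*` be a unit vector of `N_k` orthogonal to `e, u_k`: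
`N_k = <e, u_k, y*>`, `E = <e, y*> = N_k ∩ u_k^⊥`.
Classes: `A = {l ≠ i : InE N u k l}`, `I = {l : l -> i}`.  Claim: every index is `i`, `k`, `k'` or in `A ∪ I`.
Let `l ≠ i, k, k'`, not `l -> i`.  If `i -> l`: `N_k ∩ N_l` is a plane (TGT, different normal spaces)
`<e, w>`; COL for `(k, l)`: `u_k = ± w` is impossible (`N_k' ∩ N_l` contains `e, u_k`, so equals
`<e, u_k>`; COL for `(k', l)`: `u_k'` or `u_l` is `± u_k`), so `u_l = ± w ∈ N_k`, `<u_k, w> = 0`: `l ∈ A`.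
If `NR l i`: (1) `l -> k`: `l ∈ A`.  (2) `k -> l` is impossible: `u_k ∈ N_l ∩ N_k'`; if `NR l k'` then
`e ∈ N_l` (MEM), `e ∈ N_k ∩ N_l <= span {u_k}`, contradiction; else (TRI) `u_k` is a multiple of
`u_l` or of `u_k'`, contradiction.  (3) `NR l k`: ELL; L0: `u_l ∈ N_k`, `<u_l, u_k> = α <e, u_k> + η κ = 0`:
`l ∈ A`.  L1 is impossible: `e ∈ N_l`, so `NR l k'` (otherwise `N_l ∩ N_k' ∋ e` is a line, `u_l` or `u_k'`
is `± e`).  ELL for `(i, k', l)`: `x', y'`.  L0 there: `y' ⟂ e, u_k'` in `N_k'`, so `y' = ± u_k`, thus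
`u_k ∈ N_l ∩ N_k <= <e, y>`, so `y = ± u_k`, `|κ| = 1`, and `u_l ∈ <e, u_k>` gives `η^2 = 1 - α^2`,
L1 says `1 - |η| >= sqrt (1 - α^2) = |η|`, so `1 - α^2 = η^2 <= 1/4`, contradiction to `|α| <= 1/2`.
L1 there: let `ρ = sqrt (1 - α^2) >= sqrt 3/2`, `|κ| >= ρ + |η|`, `|κ'| >= ρ + |η'|` with
`κ' = <u_k', y'>`, `η' = <u_l, y'>`, so `|η|, |η'| <= 1 - ρ`.  `y = κ u_k + s y*` (`y ⟂ e`, in `N_k`),
`y' = κ' u_k' + s' u_k`, `s^2 = 1 - κ^2 <= 1/4`, `s'^2 <= 1/4`.  `c := <y, y'> = κ s' + s κ' <y*, u_k'>`, so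
`|c| <= |κ||s'| + |s||κ'| <= sqrt 3/2` (for unit vectors `(κ, s)`, `(κ', s')` with `s^2, s'^2 <= 1/4`),
so `1 - c^2 >= 1/4`.  `v := u_l - α e ∈ N_l ∩ e^⊥ = <y, y'>` (`y, y'` independent as `c^2 < 1`, and
`N_l ∩ e^⊥` is a plane), `|v|^2 = ρ^2`, `<v, y> = η`, `<v, y'> = η'`, hence
`ρ^2 (1 - c^2) = η^2 + η'^2 - 2 c η η' <= (|η| + |η'|)^2 <= 4 (1 - ρ)^2`, but `ρ^2/4 >= 3/16 = 0.1875` and
`4 (1 - ρ)^2 <= 4 * 0.018 = 0.072`, contradiction.
`|A| <= 2`: PL3 in `E` for `{i} ∪ A`.  `|I| <= 1`: let `m ≠ m'` in `I`.  For `k` and for `k'` each of `m, m'`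
is `NR` or a target (`m -> k` contradicts SRC), and by INN, OUT exactly one is a target: say `k -> m`,
`NR m' k`.  `k' -> m` is impossible (`u_k ∈ N_m ∩ N_k' <= span {u_k'}`), so `NR m k'`, `k' -> m'`.
`N_m ∩ N_k'` is a plane containing `u_k`, `<= <u_k, τ>` with `τ ∈ N_k'` a unit vector `⟂ u_k`, so
`τ ∈ <e, u_k'>`; `<u_m, τ>`, `<u_k', τ>`; `u_m ⟂ u_k` (`k -> m`), `u_k' ⟂ u_k`: COL: either `u_m = ± τ ∈ N_k'`,
but `u_m ∈ N_i ∩ N_k' = R e` contradicts `u_m ⟂ e`; or `u_k' = ± τ ∈ N_m` and `<u_m, u_k'> = 0`.  Then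
`u_k' ∈ N_m ∩ N_m'` (`k' -> m'`), `u_m, u_m' ⟂ u_k'`, and as in OUT: one of `u_m, u_m'` is in
`N_m ∩ N_m'`, contradiction.  So `n <= 3 + 2 + 1 = 6`. -/
def S_DIF : Prop := ∀ (n : ℕ) (V : Type) [NormedAddCommGroup V] [InnerProductSpace ℝ V]
  (N : Fin n → Submodule ℝ V) (u : Fin n → V), Conf N u →
  ∀ i k k' : Fin n, Arr N u i k → Arr N u i k' → k ≠ k' → N k ≠ N k' → u k ∈ N k' →
    (∀ l l' : Fin n, Arr N u i l → Arr N u i l' → l ≠ l' → N l ≠ N l') → n ≤ 6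

/-- **ONE** (all out-degrees at most one).  (captain) -/
def S_ONE : Prop := ∀ (n : ℕ) (V : Type) [NormedAddCommGroup V] [InnerProductSpace ℝ V]
  (N : Fin n → Submodule ℝ V) (u : Fin n → V), Conf N u →
  (∀ i k k' : Fin n, Arr N u i k → Arr N u i k' → k = k') →
  ∀ i k : Fin n, Arr N u i k → n ≤ 6

/-- **NRA** (no rigid pair).

Proof.  (1) All `N_l` contain a common 2-space or all are in a common 4-space.  If all are equal take any
plane in it (if `n = 0` nothing is to show).  Otherwise take `N_1 ≠ N_2`, `P = N_1 ∩ N_2` (dimension 2),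
`W = N_1 + N_2` (dimension 4).  If all `N_l` contain `P` we are done.  Else let `N_3` not contain `P`: it
meets `N_1`, `N_2` in subspaces of dimension `>= 2` whose intersection is in `N_3 ∩ P`, of dimension
`<= 1`, so (`LA (4)`) `N_3 <= W`.  The same for every `N_l` not containing `P`.  If `N_l` contains `P`:
`N_l ∩ N_3` has dimension `>= 2` and `(N_l ∩ N_3) ∩ P <= N_3 ∩ P` has dimension `<= 1`, so
`N_l = P + (N_l ∩ N_3) <= W` (`LA (4)` in `N_l`).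
(2) 4-space `W`: identify `W` with `ℝ⁴` by an orthonormal basis (`stdOrthonormalBasis`, `finrank = 4`); let
`m_i` be a unit vector of `W` orthogonal to `N_i`.  Apply `Pool.Agent.Helper29.CC.count` with the
coordinates of `u_i` and of `m_i` (`dt` of coordinates = inner product).  The hypothesis `G ≤ 3/1000` comes
from `Pool.Agent.Helper29.CC.G_le` with `t = <u_i, u_k>`, `a = <u_i, m_k>`, `b = <u_k, m_i>`,
`c = <m_i, m_k>`: `|t| <= 1/2` (HALF), `c^2 <= 1`, and the two inequalities follow from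
`Pool.Agent.Helper29.CC.pair_alg` (Bessel: `Pool.Agent.Helper29.CC.bessel`) exactly as in
`Pool.Agent.Helper29.CC.le_six`: for all real `s, r` one needs `|2u_i + s m_i - 2u_k - r m_k| >= 2`: with
the `f` of `sep` (`f ∈ N_i ∩ N_k`, orthogonal to `m_i`, `m_k`) `<.., f> = 2 <u_i - u_k, f>` has absolute
value `>= 2`; the same with `sep'` for `-u_k`, `-m_k`.
(3) common plane `Π` (dimension 2): for every `i` choose a unit vector `z_i ∈ N_i` orthogonal to `Π`, the same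
for equal `N_i` (choose as a function of the subspace `N_i`).  With an orthonormal basis `e, y` of `Π` apply
`count` to `(<u_i, e>, <u_i, y>, <u_i, z_i>, 0)` and `n_i = (0,0,0,1)`: `a = b = 0`, `c = 1`, `t` = the
inner product, `|t| <= 1/2`: if `N_i = N_k` it is `<u_i, u_k>` (HALF); otherwise `N_i ∩ N_k = Π`
(dimension) and PI gives `1 <= (..)^2 + (..)^2 <=` squared distance of the new unit vectors `= 2 - 2t`; the
same with `+`.  `G t 0 0 1 <= 3/1000` by `G_le` with `a = b = 0`, `c = 1`. -/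
def S_NRA : Prop := ∀ (n : ℕ) (V : Type) [NormedAddCommGroup V] [InnerProductSpace ℝ V]
  (N : Fin n → Submodule ℝ V) (u : Fin n → V), Conf N u → (∀ i k : Fin n, NR N i k) → n ≤ 6

open Pool.Agent.Helper80.KC in
/-- **GEO** (from cylinders to configurations).

Proof.  `Pool/Agent/Helper4/KC/A2C.lean` (goalA2C) does this for `sep`: `N i = (L i).directionᗮ`,
`u i = (1/2) q i`, `q i` the foot of `0` on `L i`; the unit vector is `g / ‖g‖`, `g` the projection of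
`q i - q k` to `N i ⊓ N k`, `‖g‖ ≥ 2` because `g = x - y` with `x ∈ L i`, `y ∈ L k`.  For `sep'` use the
projection `g` of `q i + q k`: `g = x - (-y)` with `x ∈ L i`, `y ∈ L k`, so `‖g‖ = dist x (-y) ≥ 2` by
`Pool.Agent.Helper29.CC.disjoint_anti`.  `touches_iff`, `disjoint_iff'` are in
`Pool/Agent/Helper69/KC/BOD.lean`. -/
def S_GEO : Prop := ∀ (j n : ℕ) (C : Fin n → Set (E (3 + j))),
  (∀ i, IsCylinder j (C i) ∧ Touches (C i)) →
  (∀ i i', i ≠ i' → Disjoint (interior (C i)) (interior (C i'))) →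
  (∀ i i', i ≠ i' → Disjoint (interior (C i))
    (interior (Pool.Agent.Helper29.CC.antipode (C i')))) →
  ∃ (N : Fin n → Submodule ℝ (E (3 + j))) (u : Fin n → E (3 + j)), Conf N u

open Pool.Agent.Helper80.KC in
/-- **SEL** (selection).  Copy `Pool/Agent/Helper29/CC/Main.lean` (`ne_antipode`, `interior_nonempty`,
`paired_le`) with `3 + j`, `IsCylinder j` in place of `3 + 1`, `IsCylinder 1`; the bound `le_six` is the
hypothesis `h6`. -/
def S_SEL : Prop := ∀ j : ℕ,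
  (∀ (n : ℕ) (C : Fin n → Set (E (3 + j))), (∀ i, IsCylinder j (C i) ∧ Touches (C i)) →
    (∀ i i', i ≠ i' → Disjoint (interior (C i)) (interior (C i'))) →
    (∀ i i', i ≠ i' → Disjoint (interior (C i))
      (interior (Pool.Agent.Helper29.CC.antipode (C i')))) → n ≤ 6) →
  ∀ (k : ℕ) (C : Fin k → Set (E (3 + j))), (∀ i, IsCylinder j (C i) ∧ Touches (C i)) →
    (∀ i i', i ≠ i' → Disjoint (interior (C i)) (interior (C i'))) → 13 ≤ k →
    {i | ∃ i', C i' = Pool.Agent.Helper29.CC.antipode (C i)}.ncard ≤ 10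

end Pool.Agent.Helper29.CY
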