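import Pool.Agent.Helper29.CY.Goals

/-!
# Project CY, packet ONE: all out-degrees at most one
-/

set_option autoImplicit false

open Module

namespace Pool.Agent.Helper29.CY.One

open Pool.Agent.Helper29.CY

section

variable {n : ℕ} {V : Type} [NormedAddCommGroup V] [InnerProductSpace ℝ V]
  {N : Fin n → Submodule ℝ V} {u : Fin n → V}

theorem NR_symm {i k : Fin n} (h : NR N i k) : NR N k i := by
  unfold NR at h ⊢
  rwa [inf_comm]

theorem half (hB : S_BAS) (h : Conf N u) {i k : Fin n} (hik : i ≠ k) :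
    |inner ℝ (u i) (u k)| ≤ 1 / 2 := (hB n V N u h i k hik).1

theorem half_sq (hB : S_BAS) (h : Conf N u) {i k : Fin n} (hik : i ≠ k) :
    inner ℝ (u i) (u k) ^ 2 ≤ 1 / 4 := by
  have h1 := abs_le.1 (half hB h hik)
  nlinarith [h1.1, h1.2]

theorem pi (hB : S_BAS) (h : Conf N u) {i k : Fin n} (hik : i ≠ k) (e y : V) (he : ‖e‖ = 1)
    (hy : ‖y‖ = 1) (hey : inner ℝ e y = 0) (hs : N i ⊓ N k ≤ Submodule.span ℝ {e, y}) :
    1 ≤ (inner ℝ (u i) e - inner ℝ (u k) e) ^ 2 + (inner ℝ (u i) y - inner ℝ (u k) y) ^ 2 ∧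
    1 ≤ (inner ℝ (u i) e + inner ℝ (u k) e) ^ 2 + (inner ℝ (u i) y + inner ℝ (u k) y) ^ 2 :=
  (hB n V N u h i k hik).2.2.1 e y he hy hey hs

theorem tri (hB : S_BAS) (h : Conf N u) {i k : Fin n} (hik : i ≠ k) :
    NR N i k ∨ Arr N u i k ∨ Arr N u k i := (hB n V N u h i k hik).2.2.2.2.1

theorem exc1 (hB : S_BAS) (h : Conf N u) {i k : Fin n} (ha : Arr N u i k) : ¬ NR N i k :=
  ((hB n V N u h i k ha.1).2.2.2.2.2 ha).1

theorem exc2 (hB : S_BAS) (h : Conf N u) {i k : Fin n} (ha : Arr N u i k) : ¬ Arr N u k i :=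
  ((hB n V N u h i k ha.1).2.2.2.2.2 ha).2

theorem no_par (hB : S_BAS) (h : Conf N u) {i k : Fin n} (hik : i ≠ k) :
    u i ∉ Submodule.span ℝ {u k} := by
  intro hm
  obtain ⟨c, hc⟩ := Submodule.mem_span_singleton.1 hm
  have h1 := half hB h hik
  rw [← hc, inner_smul_left, real_inner_self_eq_norm_sq, h.nrm k] at h1
  have h2 := h.nrm i
  rw [← hc, norm_smul, h.nrm k, mul_one, Real.norm_eq_abs] at h2
  have h3 : |(starRingEnd ℝ) c * 1 ^ 2| = |c| := by
    rw [one_pow, mul_one]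
    rfl
  rw [h3, h2] at h1
  norm_num at h1

/-- a unit vector orthogonal to `e` in the span of `e, z` is `± z` -/
theorem eq_or_neg {e z w : V} (he : ‖e‖ = 1) (hz : ‖z‖ = 1) (hw : ‖w‖ = 1)
    (hez : inner ℝ e z = 0) (hew : inner ℝ e w = 0) (hm : w ∈ Submodule.span ℝ {e, z}) :
    w = z ∨ w = -z := by
  obtain ⟨a, b, hab⟩ := Submodule.mem_span_pair.1 hm
  have ha : a = 0 := by
    rw [← hab, inner_add_right, inner_smul_right, inner_smul_right, hez,
      real_inner_self_eq_norm_sq, he] at hew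
    linarith
  rw [ha, zero_smul, zero_add] at hab
  have hb : |b| = 1 := by
    rw [← hab, norm_smul, hz, mul_one, Real.norm_eq_abs] at hw
    exact hw
  rcases (abs_eq (by norm_num : (0 : ℝ) ≤ 1)).1 hb with h1 | h1
  · left
    rw [← hab, h1, one_smul]
  · right
    rw [← hab, h1, neg_smul, one_smul]

theorem span_neg_pair {e z w : V} (h : w = z ∨ w = -z) :
    Submodule.span ℝ {e, w} ≤ Submodule.span ℝ {e, z} := by
  rw [Submodule.span_le]
  intro t ht
  rcases ht with rfl | rfl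
  · exact Submodule.subset_span (by simp)
  · rcases h with h | h
    · rw [h]
      exact Submodule.subset_span (by simp)
    · rw [h]
      exact Submodule.neg_mem _ (Submodule.subset_span (by simp))

/-- in the intersection of the spaces of a rigid pair, orthogonal to the source -/
theorem arr_zero (h : Conf N u) {i k : Fin n} (ha : Arr N u i k) {z : V} (hi : z ∈ N i)
    (hk : z ∈ N k) (he : inner ℝ (u i) z = 0) : z = 0 := by
  obtain ⟨c, hc⟩ := Submodule.mem_span_singleton.1 (ha.2.2.2 ⟨hi, hk⟩)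
  rw [← hc, inner_smul_right, real_inner_self_eq_norm_sq, h.nrm i] at he
  have : c = 0 := by linarith
  rw [← hc, this, zero_smul]

/-- expansion of a vector of the span of an orthonormal pair -/
theorem expand {e z w : V} (he : ‖e‖ = 1) (hz : ‖z‖ = 1) (hez : inner ℝ e z = 0)
    (hm : w ∈ Submodule.span ℝ {e, z}) : w = inner ℝ w e • e + inner ℝ w z • z := by
  obtain ⟨a, b, hab⟩ := Submodule.mem_span_pair.1 hm
  have h1 : inner ℝ w e = a := by
    rw [← hab, inner_add_left, inner_smul_left, inner_smul_left, real_inner_self_eq_norm_sq, he,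
      real_inner_comm, hez]
    simp
  have h2 : inner ℝ w z = b := by
    rw [← hab, inner_add_left, inner_smul_left, inner_smul_left, real_inner_self_eq_norm_sq, hz,
      hez]
    simp
  rw [h1, h2, hab]

/-- Bessel for a pair, and the equality case -/
theorem bessel2 {e z w : V} (he : ‖e‖ = 1) (hz : ‖z‖ = 1) (hez : inner ℝ e z = 0)
    (hw : ‖w‖ = 1) : inner ℝ w e ^ 2 + inner ℝ w z ^ 2 ≤ 1 ∧
      (inner ℝ w e ^ 2 + inner ℝ w z ^ 2 = 1 → w = inner ℝ w e • e + inner ℝ w z • z) := by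
  have h1 : ‖w - (inner ℝ w e • e + inner ℝ w z • z)‖ ^ 2 =
      1 - (inner ℝ w e ^ 2 + inner ℝ w z ^ 2) := by
    rw [← real_inner_self_eq_norm_sq]
    simp only [inner_sub_left, inner_sub_right, inner_add_left, inner_add_right,
      real_inner_smul_left, real_inner_smul_right, real_inner_self_eq_norm_sq, hw, hez,
      real_inner_comm w e, real_inner_comm w z, real_inner_comm e z, norm_smul,
      Real.norm_eq_abs, he, hz, mul_one, sq_abs]
    ring
  constructor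
  · have := sq_nonneg ‖w - (inner ℝ w e • e + inner ℝ w z • z)‖
    linarith
  · intro h2
    rw [h2, sub_self] at h1
    have h3 : w - (inner ℝ w e • e + inner ℝ w z • z) = 0 := by
      rw [← norm_eq_zero]
      exact pow_eq_zero_iff (two_ne_zero) |>.1 h1
    exact sub_eq_zero.1 h3

end

/-- the planar lemma: a non-unit projection next to two unit ones is zero -/
theorem zero_of (α ξ α0 ξ0 : ℝ) (h1 : α ^ 2 + ξ ^ 2 = 1) (hα : α ^ 2 ≤ 1 / 4)
    (h2 : 1 ≤ (α0 - 1) ^ 2 + ξ0 ^ 2) (h3 : 1 ≤ (α0 + 1) ^ 2 + ξ0 ^ 2)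
    (h4 : 1 ≤ (α - α0) ^ 2 + (ξ - ξ0) ^ 2) (h5 : 1 ≤ (α + α0) ^ 2 + (ξ + ξ0) ^ 2)
    (h6 : α0 ^ 2 + ξ0 ^ 2 < 1) : α0 = 0 ∧ ξ0 = 0 := by
  have hq0 : 0 ≤ α0 ^ 2 + ξ0 ^ 2 := by positivity
  obtain ⟨q, hq⟩ : ∃ q, q = α0 ^ 2 + ξ0 ^ 2 := ⟨_, rfl⟩
  rw [← hq] at hq0 h6
  have c2 : (α0 - 1) ^ 2 + ξ0 ^ 2 = q - 2 * α0 + 1 := by rw [hq]; ring
  have c3 : (α0 + 1) ^ 2 + ξ0 ^ 2 = q + 2 * α0 + 1 := by rw [hq]; ring
  have c4 : (α - α0) ^ 2 + (ξ - ξ0) ^ 2 = α ^ 2 + ξ ^ 2 + q - 2 * (α * α0 + ξ * ξ0) := by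
    rw [hq]; ring
  have c5 : (α + α0) ^ 2 + (ξ + ξ0) ^ 2 = α ^ 2 + ξ ^ 2 + q + 2 * (α * α0 + ξ * ξ0) := by
    rw [hq]; ring
  rw [c2] at h2
  rw [c3] at h3
  rw [c4, h1] at h4
  rw [c5, h1] at h5
  have a1 : |α0| ≤ q / 2 := by
    rw [abs_le]
    constructor <;> linarith
  have a2 : |α * α0 + ξ * ξ0| ≤ q / 2 := by
    rw [abs_le]
    constructor <;> linarith
  have a3 : |α| ≤ 1 / 2 := by
    have : |α| ^ 2 ≤ (1 / 2) ^ 2 := by rw [sq_abs]; linarith
    exact le_of_sq_le_sq this (by norm_num)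
  have a4 : |ξ * ξ0| ≤ 3 * q / 4 := by
    have b1 := abs_sub (α * α0 + ξ * ξ0) (α * α0)
    rw [show α * α0 + ξ * ξ0 - α * α0 = ξ * ξ0 by ring] at b1
    have b2 : |α * α0| ≤ q / 4 := by
      rw [abs_mul]
      have := mul_le_mul a3 a1 (abs_nonneg _) (by norm_num : (0 : ℝ) ≤ 1 / 2)
      linarith
    linarith
  have a5 : (ξ * ξ0) ^ 2 ≤ (3 * q / 4) ^ 2 := by
    rw [← sq_abs (ξ * ξ0)]
    exact pow_le_pow_left₀ (abs_nonneg _) a4 2
  have a6 : α0 ^ 2 ≤ (q / 2) ^ 2 := by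
    rw [← sq_abs α0]
    exact pow_le_pow_left₀ (abs_nonneg _) a1 2
  have a7 : 3 / 4 * ξ0 ^ 2 ≤ (ξ * ξ0) ^ 2 := by
    rw [mul_pow]
    apply mul_le_mul_of_nonneg_right _ (sq_nonneg _)
    linarith
  have a8 : q ≤ q ^ 2 := by
    have e6 : (q / 2) ^ 2 = q ^ 2 / 4 := by ring
    have e5 : (3 * q / 4) ^ 2 = 9 / 16 * q ^ 2 := by ring
    rw [e6] at a6
    rw [e5] at a5
    linarith
  have a9 : q = 0 := by
    by_contra hne
    have hpos : 0 < q := lt_of_le_of_ne hq0 (Ne.symm hne)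
    have : q * (1 - q) ≤ 0 := by linarith [sq q]
    have h7 := mul_pos hpos (sub_pos.2 h6)
    linarith
  rw [a9] at hq
  constructor
  · have : α0 ^ 2 = 0 := le_antisymm (by linarith [sq_nonneg ξ0]) (sq_nonneg _)
    exact pow_eq_zero_iff (two_ne_zero) |>.1 this
  · have : ξ0 ^ 2 = 0 := le_antisymm (by linarith [sq_nonneg α0]) (sq_nonneg _)
    exact pow_eq_zero_iff (two_ne_zero) |>.1 this

end Pool.Agent.Helper29.CY.One
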