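import Pool.Agent.Helper29.CY.One

/-!
# Project CY, packet ONE, part 2: the pairwise lemmas
-/

set_option autoImplicit false

open Module

namespace Pool.Agent.Helper29.CY.One

open Pool.Agent.Helper29.CY

section

variable {n : ℕ} {V : Type} [NormedAddCommGroup V] [InnerProductSpace ℝ V]
  {N : Fin n → Submodule ℝ V} {u : Fin n → V}

/-- two members containing the source are non-rigid -/
theorem nr_of_mem (hB : S_BAS) (h : Conf N u) {i l m : Fin n} (hlm : l ≠ m) (hli : l ≠ i)
    (hmi : m ≠ i) (hl : u i ∈ N l) (hm : u i ∈ N m) : NR N l m := by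
  rcases tri hB h hlm with h1 | h1 | h1
  · exact h1
  · exact absurd (h1.2.2.2 ⟨hl, hm⟩) (no_par hB h hli.symm)
  · exact absurd (h1.2.2.2 ⟨hm, hl⟩) (no_par hB h hmi.symm)

theorem span_pair_le {e z : V} {W : Submodule ℝ V} (he : e ∈ W) (hz : z ∈ W) :
    Submodule.span ℝ {e, z} ≤ W := by
  rw [Submodule.span_le]
  intro t ht
  rcases ht with rfl | rfl
  · exact he
  · exact hz

theorem mem_triple {e x y w : V} (hm : w ∈ Submodule.span ℝ {e, x, y}) :
    ∃ a b c : ℝ, w = a • e + b • x + c • y := by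
  obtain ⟨a, b, c, h⟩ := Submodule.mem_span_triple.1 hm
  exact ⟨a, b, c, h.symm⟩

/-- **Rook lemma**: two members that are non-rigid with both ends of `i -> k` -/
theorem rook (hLA : S_LA) (hB : S_BAS) (h : Conf N u) {i k l m : Fin n} (ha : Arr N u i k)
    (hlm : l ≠ m) (hli : l ≠ i) (hmi : m ≠ i) {x y x' y' : V} (fl : Frame N u i k l x y)
    (fm : Frame N u i k m x' y') :
    (N l = N m ∧ (x' = x ∨ x' = -x) ∧ (y' = y ∨ y' = -y)) ∨
    (N l ≠ N m ∧ (x' = x ∨ x' = -x) ∧ N l ⊓ N m ≤ Submodule.span ℝ {u i, x}) ∨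
    (N l ≠ N m ∧ (y' = y ∨ y' = -y) ∧ N l ⊓ N m ≤ Submodule.span ℝ {u i, y}) := by
  have he := h.nrm i
  by_cases hN : N l = N m
  · left
    refine ⟨hN, ?_, ?_⟩
    · have h1 : x' ∈ Submodule.span ℝ {u i, x} := fl.li ⟨hN ▸ fm.xl, fm.xi⟩
      exact eq_or_neg he fl.xn fm.xn fl.ex fm.ex h1
    · have h1 : y' ∈ Submodule.span ℝ {u i, y} := fl.lk ⟨hN ▸ fm.yl, fm.yk⟩
      exact eq_or_neg he fl.yn fm.yn fl.ey fm.ey h1
  right
  have hnr := nr_of_mem hB h hlm hli hmi fl.el fm.el
  have hdim : finrank ℝ ↥(N l ⊓ N m) = 2 :=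
    le_antisymm (hLA.2.1 V (N l) (N m) (h.dim l) (h.dim m) hN) hnr
  obtain ⟨z, hz, hzn, hez, hsp⟩ := hLA.2.2.1 V (N l ⊓ N m) (u i) hdim ⟨fl.el, fm.el⟩ he
  obtain ⟨a, b, c, e1⟩ := mem_triple (fl.sp hz.1)
  obtain ⟨a', b', c', e2⟩ := mem_triple (fm.sp hz.2)
  have ha0 : a = 0 := by
    have h1 := hez
    rw [e1, inner_add_right, inner_add_right, inner_smul_right, inner_smul_right,
      inner_smul_right, fl.ex, fl.ey, real_inner_self_eq_norm_sq, he] at h1
    linarith
  have ha0' : a' = 0 := by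
    have h1 := hez
    rw [e2, inner_add_right, inner_add_right, inner_smul_right, inner_smul_right,
      inner_smul_right, fm.ex, fm.ey, real_inner_self_eq_norm_sq, he] at h1
    linarith
  rw [ha0, zero_smul, zero_add] at e1
  rw [ha0', zero_smul, zero_add] at e2
  have e3 : b • x - b' • x' = c' • y' - c • y := by
    have : b • x + c • y = b' • x' + c' • y' := e1.symm.trans e2
    rw [sub_eq_sub_iff_add_eq_add, this, add_comm]
  have e4 : b • x - b' • x' = 0 := by
    refine arr_zero h ha ?_ ?_ ?_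
    · exact Submodule.sub_mem _ (Submodule.smul_mem _ _ fl.xi) (Submodule.smul_mem _ _ fm.xi)
    · rw [e3]
      exact Submodule.sub_mem _ (Submodule.smul_mem _ _ fm.yk) (Submodule.smul_mem _ _ fl.yk)
    · rw [inner_sub_right, inner_smul_right, inner_smul_right, fl.ex, fm.ex]
      simp
  have e5 : c • y - c' • y' = 0 := by
    have : c' • y' - c • y = 0 := e3.symm.trans e4
    rw [← neg_sub, this, neg_zero]
  -- if `s • p = s' • p'` with unit vectors, `s ≠ 0`, then `p' = ± p`
  have key : ∀ (s s' : ℝ) (p p' : V), ‖p‖ = 1 → ‖p'‖ = 1 → s • p - s' • p' = 0 → s ≠ 0 →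
      p' = p ∨ p' = -p := by
    intro s s' p p' hp hp' hs hs0
    have h1 : s • p = s' • p' := sub_eq_zero.1 hs
    have h2 : |s| = |s'| := by
      have := congrArg norm h1
      rwa [norm_smul, norm_smul, hp, hp', mul_one, mul_one, Real.norm_eq_abs,
        Real.norm_eq_abs] at this
    have hs' : s' ≠ 0 := by
      intro h3
      rw [h3, abs_zero, abs_eq_zero] at h2
      exact hs0 h2
    rcases abs_eq_abs.1 h2 with h3 | h3
    · left
      rw [h3] at h1
      exact (smul_right_injective V hs' h1).symm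
    · right
      rw [h3, neg_smul, ← smul_neg] at h1
      exact (smul_right_injective V hs' h1).symm
  by_cases hb : b = 0
  · -- `z = c y`
    right
    have hc : c ≠ 0 := by
      intro hc
      rw [hb, hc, zero_smul, zero_smul, add_zero] at e1
      rw [e1, norm_zero] at hzn
      exact zero_ne_one hzn
    refine ⟨hN, key c c' y y' fl.yn fm.yn e5 hc, hsp.trans ?_⟩
    rw [hb, zero_smul, zero_add] at e1
    refine span_pair_le (Submodule.subset_span (by simp)) ?_
    rw [e1]
    exact Submodule.smul_mem _ _ (Submodule.subset_span (by simp))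
  · by_cases hc : c = 0
    · left
      refine ⟨hN, key b b' x x' fl.xn fm.xn e4 hb, hsp.trans ?_⟩
      rw [hc, zero_smul, add_zero] at e1
      refine span_pair_le (Submodule.subset_span (by simp)) ?_
      rw [e1]
      exact Submodule.smul_mem _ _ (Submodule.subset_span (by simp))
    · exfalso
      have hx := key b b' x x' fl.xn fm.xn e4 hb
      have hy := key c c' y y' fl.yn fm.yn e5 hc
      have hxm : x ∈ N m := by
        rcases hx with hx | hx
        · rw [← hx]; exact fm.xl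
        · have : x = -x' := by rw [hx, neg_neg]
          rw [this]; exact Submodule.neg_mem _ fm.xl
      have hym : y ∈ N m := by
        rcases hy with hy | hy
        · rw [← hy]; exact fm.yl
        · have : y = -y' := by rw [hy, neg_neg]
          rw [this]; exact Submodule.neg_mem _ fm.yl
      have hle : N l ≤ N m := by
        refine fl.sp.trans ?_
        rw [Submodule.span_le]
        intro t ht
        rcases ht with rfl | rfl | rfl
        · exact fm.el
        · exact hxm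
        · exact hym
      have : Module.Finite ℝ (N m) := Module.finite_of_finrank_pos (by rw [h.dim m]; norm_num)
      exact hN (Submodule.eq_of_le_of_finrank_eq hle ((h.dim l).trans (h.dim m).symm))

/-- numerical facts for a member of the second kind -/
theorem l1_num (hB : S_BAS) (h : Conf N u) {i k l : Fin n} (hli : l ≠ i) {x y : V}
    (h1 : L1 N u i k l x y) :
    inner ℝ (u l) (u i) ^ 2 ≤ 1 / 4 ∧ |inner ℝ (u l) y| < 1 / 4 ∧ inner ℝ (u k) y ≠ 0 ∧
      (inner ℝ (u l) (u i) = 0 → inner ℝ (u l) y = 0) := by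
  obtain ⟨fr, h2, h3⟩ := h1
  have hα := half_sq hB h hli
  have hκ : |inner ℝ (u k) y| ≤ 1 := by
    have := abs_real_inner_le_norm (u k) y
    rwa [h.nrm k, fr.yn, mul_one] at this
  have hη := abs_nonneg (inner ℝ (u l) y)
  generalize inner ℝ (u l) (u i) = α at *
  generalize hκe : inner ℝ (u k) y = κ at *
  generalize inner ℝ (u l) y = η at *
  have h4 : (|κ| - |η|) ^ 2 ≤ (1 - |η|) ^ 2 :=
    pow_le_pow_left₀ (by linarith) (by linarith) 2
  have h5 : |η| < 1 := lt_of_lt_of_le h2 hκ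
  refine ⟨hα, ?_, ?_, ?_⟩
  · by_contra hcon
    push Not at hcon
    have h6 : (1 - |η|) ^ 2 ≤ (3 / 4) ^ 2 := pow_le_pow_left₀ (by linarith) (by linarith) 2
    norm_num at h6
    linarith
  · intro h6
    rw [h6, abs_zero] at h2
    linarith
  · intro h6
    rw [h6, zero_pow two_ne_zero, sub_zero] at h3
    have h7 : 1 ≤ 1 - |η| := by
      have h8 : (1 : ℝ) ^ 2 ≤ (1 - |η|) ^ 2 := by
        rw [one_pow]
        linarith
      exact le_of_sq_le_sq h8 (by linarith)
    have h9 : |η| = 0 := by linarith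
    exact abs_eq_zero.1 h9

/-- two members of the second kind share the line of `x` -/
theorem bb1 (hLA : S_LA) (hB : S_BAS) (h : Conf N u) {i k l m : Fin n} (ha : Arr N u i k)
    (hlm : l ≠ m) (hli : l ≠ i) (hmi : m ≠ i) {x y x' y' : V} (hl : L1 N u i k l x y)
    (hm : L1 N u i k m x' y') :
    (N l = N m ∧ (x' = x ∨ x' = -x) ∧ (y' = y ∨ y' = -y)) ∨
    (N l ≠ N m ∧ (x' = x ∨ x' = -x) ∧ N l ⊓ N m ≤ Submodule.span ℝ {u i, x}) := by
  rcases rook hLA hB h ha hlm hli hmi hl.1 hm.1 with h1 | h1 | ⟨h1, h2, h3⟩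
  · exact Or.inl h1
  · exact Or.inr h1
  · exfalso
    obtain ⟨p1, p2⟩ := pi hB h hlm (u i) y (h.nrm i) hl.1.yn hl.1.ey h3
    obtain ⟨q1, q2, -, -⟩ := l1_num hB h hli hl
    obtain ⟨r1, r2, -, -⟩ := l1_num hB h hmi hm
    have r3 : |inner ℝ (u m) y| < 1 / 4 := by
      rcases h2 with h2 | h2
      · rwa [← h2]
      · rw [h2, inner_neg_right, abs_neg] at r2
        exact r2
    have s1 : inner ℝ (u l) y ^ 2 < 1 / 16 := by
      rw [← sq_abs]
      have := pow_lt_pow_left₀ q2 (abs_nonneg _) (two_ne_zero)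
      norm_num at this ⊢
      exact this
    have s2 : inner ℝ (u m) y ^ 2 < 1 / 16 := by
      rw [← sq_abs]
      have := pow_lt_pow_left₀ r3 (abs_nonneg _) (two_ne_zero)
      norm_num at this ⊢
      exact this
    nlinarith

/-- the projection data on the plane `<e, x>` -/
theorem pi_i (hB : S_BAS) (h : Conf N u) {i l : Fin n} (hli : l ≠ i) {x : V} (hx : ‖x‖ = 1)
    (hex : inner ℝ (u i) x = 0) (hs : N l ⊓ N i ≤ Submodule.span ℝ {u i, x}) :
    1 ≤ (inner ℝ (u l) (u i) - 1) ^ 2 + inner ℝ (u l) x ^ 2 ∧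
    1 ≤ (inner ℝ (u l) (u i) + 1) ^ 2 + inner ℝ (u l) x ^ 2 := by
  obtain ⟨p1, p2⟩ := pi hB h hli (u i) x (h.nrm i) hx hex hs
  rw [real_inner_self_eq_norm_sq, h.nrm i, hex] at p1 p2
  constructor
  · convert p1 using 2 <;> ring
  · convert p2 using 2 <;> ring

/-- two members of the second kind with different normal spaces are in the plane `<e, x>` -/
theorem bb2 (hLA : S_LA) (hHEX : S_HEX) (hB : S_BAS) (h : Conf N u) {i k l m : Fin n}
    (ha : Arr N u i k) (hlm : l ≠ m) (hli : l ≠ i) (hmi : m ≠ i) {x y x' y' : V}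
    (hl : L1 N u i k l x y) (hm : L1 N u i k m x' y') (hN : N l ≠ N m) :
    inner ℝ (u l) (u i) ^ 2 + inner ℝ (u l) x ^ 2 = 1 ∧
      inner ℝ (u m) (u i) ^ 2 + inner ℝ (u m) x' ^ 2 = 1 := by
  rcases bb1 hLA hB h ha hlm hli hmi hl hm with ⟨h1, -⟩ | ⟨-, hx, hs⟩
  · exact absurd h1 hN
  have he := h.nrm i
  have fl := hl.1
  have fm := hm.1
  have hxx : inner ℝ (u m) x' ^ 2 = inner ℝ (u m) x ^ 2 := by
    rcases hx with hx | hx
    · rw [hx]
    · rw [hx, inner_neg_right, neg_sq]
  rw [hxx]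
  have hmi' : N m ⊓ N i ≤ Submodule.span ℝ {u i, x} := fm.li.trans (span_neg_pair hx)
  obtain ⟨a1, a2⟩ := pi_i hB h hli fl.xn fl.ex fl.li
  obtain ⟨b1, b2⟩ := pi_i hB h hmi fl.xn fl.ex hmi'
  obtain ⟨c1, c2⟩ := pi hB h hlm (u i) x he fl.xn fl.ex hs
  obtain ⟨B1, -⟩ := bessel2 he fl.xn fl.ex (h.nrm l)
  obtain ⟨B2, -⟩ := bessel2 he fl.xn fl.ex (h.nrm m)
  have αl := half_sq hB h hli
  have αm := half_sq hB h hmi
  -- a member of the second kind is not orthogonal to `e` and `x`
  have nz : ∀ (j : Fin n) (x0 y0 : V), j ≠ i → L1 N u i k j x0 y0 → (x0 = x ∨ x0 = -x) →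
      ¬ (inner ℝ (u j) (u i) = 0 ∧ inner ℝ (u j) x = 0) := by
    intro j x0 y0 hji hj hx0 ⟨z1, z2⟩
    obtain ⟨-, -, -, z3⟩ := l1_num hB h hji hj
    obtain ⟨a, b, c, e1⟩ := mem_triple (hj.1.sp (h.mem j))
    have z4 : inner ℝ (u j) x0 = 0 := by
      rcases hx0 with hx0 | hx0
      · rw [hx0, z2]
      · rw [hx0, inner_neg_right, z2, neg_zero]
    have z5 : inner ℝ (u j) (a • u i + b • x0 + c • y0) = 0 := by
      rw [inner_add_right, inner_add_right, inner_smul_right, inner_smul_right, inner_smul_right,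
        z1, z4, z3 z1]
      simp
    rw [← e1, real_inner_self_eq_norm_sq, h.nrm j] at z5
    norm_num at z5
  have nl := nz l x y hli hl (Or.inl rfl)
  have nm := nz m x' y' hmi hm hx
  clear nz
  generalize inner ℝ (u l) (u i) = α at *
  generalize inner ℝ (u l) x = ξ at *
  generalize inner ℝ (u m) (u i) = α' at *
  generalize inner ℝ (u m) x = ξ' at *
  rcases B1.lt_or_eq with B1' | B1'
  · exfalso
    rcases B2.lt_or_eq with B2' | B2'
    · refine hHEX α ξ α' ξ' 1 0 B1' B2' (by norm_num) c1 c2 ?_ ?_ ?_ ?_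
      · convert a1 using 2 <;> ring
      · convert a2 using 2 <;> ring
      · convert b1 using 2 <;> ring
      · convert b2 using 2 <;> ring
    · refine nl (zero_of α' ξ' α ξ B2' αm a1 a2 ?_ ?_ B1')
      · refine c1.trans (le_of_eq ?_)
        ring
      · refine c2.trans (le_of_eq ?_)
        ring
  · refine ⟨B1', ?_⟩
    rcases B2.lt_or_eq with B2' | B2'
    · exact absurd (zero_of α ξ α' ξ' B1' αl b1 b2 c1 c2 B2') nm
    · exact B2'

end

end Pool.Agent.Helper29.CY.One
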