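import Pool.Agent.Helper29.CY.OneB

/-!
# Project CY, packet ONE, part 3: more pairwise lemmas
-/

set_option autoImplicit false

open Module

namespace Pool.Agent.Helper29.CY.One

open Pool.Agent.Helper29.CY

section

variable {n : ℕ} {V : Type} [NormedAddCommGroup V] [InnerProductSpace ℝ V]
  {N : Fin n → Submodule ℝ V} {u : Fin n → V}

theorem parseval2 {e z w : V} (he : ‖e‖ = 1) (hz : ‖z‖ = 1) (hez : inner ℝ e z = 0)
    (hw : ‖w‖ = 1) (hm : w ∈ Submodule.span ℝ {e, z}) :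
    inner ℝ w e ^ 2 + inner ℝ w z ^ 2 = 1 := by
  have h1 := expand he hz hez hm
  have h2 : inner ℝ w w = inner ℝ w e * inner ℝ w e + inner ℝ w z * inner ℝ w z := by
    conv_lhs => rw [h1]
    rw [inner_add_left, real_inner_smul_left, real_inner_smul_left]
    have h3 : inner ℝ e (inner ℝ w e • e + inner ℝ w z • z) = inner ℝ w e := by
      rw [← h1, real_inner_comm]
    have h4 : inner ℝ z (inner ℝ w e • e + inner ℝ w z • z) = inner ℝ w z := by
      rw [← h1, real_inner_comm]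
    rw [h3, h4]
  rw [real_inner_self_eq_norm_sq, hw] at h2
  linarith

theorem finrank_pair {e z : V} (he : ‖e‖ = 1) (hz : ‖z‖ = 1) (hez : inner ℝ e z = 0) :
    finrank ℝ (Submodule.span ℝ {e, z}) = 2 := by
  have ho : Orthonormal ℝ ![e, z] := by
    rw [orthonormal_iff_ite]
    intro a b
    fin_cases a <;> fin_cases b <;> simp [he, hz, hez, real_inner_comm e z]
  have h1 := finrank_span_eq_card ho.linearIndependent
  have h2 : Set.range ![e, z] = {e, z} := by
    ext t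
    simp only [Set.mem_range, Fin.exists_fin_two, Matrix.cons_val_zero, Matrix.cons_val_one,
      Matrix.cons_val_fin_one, Set.mem_insert_iff, Set.mem_singleton_iff]
    rw [eq_comm (a := e), eq_comm (a := z)]
  rw [h2, Fintype.card_fin] at h1
  exact h1

/-- a member of the second kind is not in `N_k` -/
theorem l1_notmem (hB : S_BAS) (h : Conf N u) {i k l : Fin n} (hli : l ≠ i) {x y : V}
    (h1 : L1 N u i k l x y) : u l ∉ N k := by
  intro hm
  obtain ⟨a1, a2, -, -⟩ := l1_num hB h hli h1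
  have h2 := parseval2 (h.nrm i) h1.1.yn h1.1.ey (h.nrm l) (h1.1.lk ⟨h.mem l, hm⟩)
  have h3 : inner ℝ (u l) y ^ 2 < 1 / 16 := by
    rw [← sq_abs]
    have := pow_lt_pow_left₀ a2 (abs_nonneg _) (two_ne_zero)
    norm_num at this ⊢
    exact this
  linarith

/-- **Fact 2** -/
theorem fact2 (hB : S_BAS) (hNBR : S_NBR) (h : Conf N u) {i k l m : Fin n} (ha : Arr N u i k)
    {x y : V} (hl : L1 N u i k l x y) (hli : l ≠ i) (hlk : NR N l k) (hmk : Arr N u m k)
    (hmi : m ≠ i) : Arr N u l m := by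
  have hlm : l ≠ m := by
    rintro rfl
    exact exc1 hB h hmk hlk
  have key : u m ∈ N l → False := by
    intro hm
    have h1 := expand (h.nrm i) hl.1.yn hl.1.ey (hl.1.lk ⟨hm, hmk.2.1⟩)
    have h2 := hmk.2.2.1
    rw [h1, inner_add_left, real_inner_smul_left, real_inner_smul_left, ha.2.2.1,
      mul_zero, zero_add] at h2
    obtain ⟨-, -, h3, -⟩ := l1_num hB h hli hl
    rcases mul_eq_zero.1 h2 with h4 | h4
    · rw [h4, zero_smul, add_zero] at h1
      refine no_par hB h hmi ?_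
      rw [h1]
      exact Submodule.smul_mem _ _ (Submodule.mem_span_singleton_self _)
    · exact h3 (by rw [real_inner_comm]; exact h4)
  rcases tri hB h hlm with h1 | h1 | h1
  · exact (key ((hNBR n V N u h).2.2.1 m k l hmk h1 hlk)).elim
  · exact h1
  · exact (key h1.2.1).elim

/-- **Fact 4** -/
theorem fact4 (hLA : S_LA) (hHEX : S_HEX) (hB : S_BAS) (h : Conf N u) {i k l m : Fin n}
    (ha : Arr N u i k) {x y x0 y0 : V} (hl : L1 N u i k l x y) (hm : L0 N u i k m x0 y0)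
    (hli : l ≠ i) (hmi : m ≠ i) :
    inner ℝ (u m) (u i) = 0 ∧ u l ∈ Submodule.span ℝ {u i, x} := by
  have he := h.nrm i
  have fl := hl.1
  have fm := hm.1
  have hmN : u m ∈ N k := by
    rw [hm.2.2]
    exact Submodule.add_mem _ (Submodule.smul_mem _ _ ha.2.1) (Submodule.smul_mem _ _ fm.yk)
  have hlm : l ≠ m := by
    rintro rfl
    exact l1_notmem hB h hli hl hmN
  obtain ⟨-, -, hκ, -⟩ := l1_num hB h hli hl
  have hyy : ¬ (y0 = y ∨ y0 = -y) := by
    intro h1
    have h2 := hm.2.1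
    rcases h1 with h1 | h1
    · rw [h1] at h2
      exact hκ h2
    · rw [h1, inner_neg_right, neg_eq_zero] at h2
      exact hκ h2
  rcases rook hLA hB h ha hlm hli hmi fl fm with ⟨-, -, h1⟩ | ⟨hN, hx, hs⟩ | ⟨-, h1, -⟩
  · exact absurd h1 hyy
  · have hmi' : N m ⊓ N i ≤ Submodule.span ℝ {u i, x} := fm.li.trans (span_neg_pair hx)
    obtain ⟨a1, a2⟩ := pi_i hB h hli fl.xn fl.ex fl.li
    obtain ⟨b1, b2⟩ := pi_i hB h hmi fl.xn fl.ex hmi'
    obtain ⟨c1, c2⟩ := pi hB h hlm (u i) x he fl.xn fl.ex hs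
    obtain ⟨B1, B1'⟩ := bessel2 he fl.xn fl.ex (h.nrm l)
    obtain ⟨B2, B2'⟩ := bessel2 he fl.xn fl.ex (h.nrm m)
    have αl := half_sq hB h hli
    have hlt : inner ℝ (u m) (u i) ^ 2 + inner ℝ (u m) x ^ 2 < 1 := by
      refine lt_of_le_of_ne B2 fun h1 => ?_
      have h2 := B2' h1
      refine no_par hB h hmi (ha.2.2.2 ⟨?_, hmN⟩)
      rw [h2]
      exact Submodule.add_mem _ (Submodule.smul_mem _ _ (h.mem i)) (Submodule.smul_mem _ _ fl.xi)
    have heq : inner ℝ (u l) (u i) ^ 2 + inner ℝ (u l) x ^ 2 = 1 := by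
      rcases B1.lt_or_eq with h1 | h1
      · exfalso
        refine hHEX _ _ _ _ 1 0 h1 hlt (by norm_num) c1 c2 ?_ ?_ ?_ ?_
        · refine a1.trans (le_of_eq ?_)
          ring
        · refine a2.trans (le_of_eq ?_)
          ring
        · refine b1.trans (le_of_eq ?_)
          ring
        · refine b2.trans (le_of_eq ?_)
          ring
      · exact h1
    refine ⟨(zero_of _ _ _ _ heq αl b1 b2 c1 c2 hlt).1, ?_⟩
    rw [B1' heq]
    exact Submodule.add_mem _ (Submodule.smul_mem _ _ (Submodule.subset_span (by simp)))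
      (Submodule.smul_mem _ _ (Submodule.subset_span (by simp)))
  · exact absurd h1 hyy

/-- third vector of an orthonormal basis -/
theorem onb3 {e x y : V} (he : ‖e‖ = 1) (hx : ‖x‖ = 1) (hy : ‖y‖ = 1) (hex : inner ℝ e x = 0)
    (hey : inner ℝ e y = 0) (hne : x - inner ℝ x y • y ≠ 0) :
    ∃ t : V, ‖t‖ = 1 ∧ inner ℝ t e = 0 ∧ inner ℝ t y = 0 ∧
      ∀ w ∈ Submodule.span ℝ {e, x, y}, w = inner ℝ w e • e + inner ℝ w y • y + inner ℝ w t • t := by
  set t0 := x - inner ℝ x y • y with ht0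
  have hn : ‖t0‖ ≠ 0 := norm_ne_zero_iff.2 hne
  have hxe : inner ℝ x e = 0 := by rw [real_inner_comm]; exact hex
  have hye : inner ℝ y e = 0 := by rw [real_inner_comm]; exact hey
  have k1 : inner ℝ t0 e = 0 := by
    rw [ht0, inner_sub_left, real_inner_smul_left, hxe, hye]
    simp
  have k2 : inner ℝ t0 y = 0 := by
    rw [ht0, inner_sub_left, real_inner_smul_left, real_inner_self_eq_norm_sq, hy]
    ring
  refine ⟨‖t0‖⁻¹ • t0, ?_, ?_, ?_, ?_⟩
  · rw [norm_smul, norm_inv, norm_norm, inv_mul_cancel₀ hn]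
  · rw [real_inner_smul_left, k1, mul_zero]
  · rw [real_inner_smul_left, k2, mul_zero]
  · intro w hw
    obtain ⟨a, b, c, e1⟩ := mem_triple hw
    have hxt : x = inner ℝ x y • y + ‖t0‖ • (‖t0‖⁻¹ • t0) := by
      rw [smul_smul, mul_inv_cancel₀ hn, one_smul, ht0]
      abel
    set t := ‖t0‖⁻¹ • t0 with ht
    have t1 : ‖t‖ = 1 := by
      rw [ht, norm_smul, norm_inv, norm_norm, inv_mul_cancel₀ hn]
    have t2 : inner ℝ t e = 0 := by rw [ht, real_inner_smul_left, k1, mul_zero]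
    have t3 : inner ℝ t y = 0 := by rw [ht, real_inner_smul_left, k2, mul_zero]
    have e2 : w = a • e + (b * inner ℝ x y + c) • y + (b * ‖t0‖) • t := by
      rw [e1]
      conv_lhs => rw [hxt]
      rw [smul_add, smul_smul, smul_smul, add_smul]
      abel
    have t2' : inner ℝ e t = 0 := by rw [real_inner_comm]; exact t2
    have t3' : inner ℝ y t = 0 := by rw [real_inner_comm]; exact t3
    have w1 : inner ℝ w e = a := by
      rw [e2, inner_add_left, inner_add_left, real_inner_smul_left, real_inner_smul_left,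
        real_inner_smul_left, real_inner_self_eq_norm_sq, he, t2, hye]
      ring
    have w2 : inner ℝ w y = b * inner ℝ x y + c := by
      rw [e2, inner_add_left, inner_add_left, real_inner_smul_left, real_inner_smul_left,
        real_inner_smul_left, real_inner_self_eq_norm_sq, hy, t3, hey]
      ring
    have w3 : inner ℝ w t = b * ‖t0‖ := by
      rw [e2, inner_add_left, inner_add_left, real_inner_smul_left, real_inner_smul_left,
        real_inner_smul_left, real_inner_self_eq_norm_sq, t1, t2', t3']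
      ring
    rw [w1, w2, w3]
    exact e2

/-- sign lemma -/
theorem sign_lemma (α η ζ α' η' ζ' : ℝ) (h1 : α ^ 2 + η ^ 2 + ζ ^ 2 = 1)
    (h2 : α' ^ 2 + η' ^ 2 + ζ' ^ 2 = 1) (hα : α ^ 2 ≤ 1 / 4) (hα' : α' ^ 2 ≤ 1 / 4)
    (hη : |η| < 1 / 4) (hη' : |η'| < 1 / 4) (h3 : |α * α' + η * η' + ζ * ζ'| ≤ 1 / 2) :
    α * α' * (ζ * ζ') < 0 := by
  have e1 : η ^ 2 ≤ 1 / 16 := by
    rw [← sq_abs]
    have := pow_le_pow_left₀ (abs_nonneg η) hη.le 2
    norm_num at this ⊢
    exact this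
  have e2 : η' ^ 2 ≤ 1 / 16 := by
    rw [← sq_abs]
    have := pow_le_pow_left₀ (abs_nonneg η') hη'.le 2
    norm_num at this ⊢
    exact this
  have z1 : 11 / 16 ≤ ζ ^ 2 := by linarith
  have z2 : 11 / 16 ≤ ζ' ^ 2 := by linarith
  have z3 : (11 / 16) ^ 2 ≤ (ζ * ζ') ^ 2 := by
    rw [mul_pow, sq (11 / 16 : ℝ)]
    exact mul_le_mul z1 z2 (by norm_num) (by positivity)
  have z4 : 11 / 16 ≤ |ζ * ζ'| := by
    rw [← sq_abs (ζ * ζ')] at z3
    exact le_of_sq_le_sq z3 (abs_nonneg _)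
  have z5 : |η * η'| ≤ 1 / 16 := by
    rw [abs_mul]
    have := mul_le_mul hη.le hη'.le (abs_nonneg _) (by norm_num : (0 : ℝ) ≤ 1 / 4)
    norm_num at this ⊢
    exact this
  obtain ⟨z6, z7⟩ := abs_le.1 z5
  obtain ⟨h4, h5⟩ := abs_le.1 h3
  by_contra hcon
  push Not at hcon
  rcases le_or_gt 0 (ζ * ζ') with hz | hz
  · rw [abs_of_nonneg hz] at z4
    have : 0 ≤ α * α' := by
      by_contra hn
      push Not at hn
      have := mul_neg_of_neg_of_pos hn (by linarith : 0 < ζ * ζ')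
      linarith
    linarith
  · rw [abs_of_neg hz] at z4
    have : α * α' ≤ 0 := by
      by_contra hn
      push Not at hn
      have := mul_neg_of_pos_of_neg hn hz
      linarith
    linarith

theorem inner_onb3 {e y t w w' : V}
    (hw : w = inner ℝ w e • e + inner ℝ w y • y + inner ℝ w t • t) :
    inner ℝ w w' = inner ℝ w e * inner ℝ w' e + inner ℝ w y * inner ℝ w' y +
      inner ℝ w t * inner ℝ w' t := by
  conv_lhs => rw [hw]
  rw [inner_add_left, inner_add_left, real_inner_smul_left, real_inner_smul_left,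
    real_inner_smul_left, real_inner_comm w' e, real_inner_comm w' y, real_inner_comm w' t]

/-- no three members of the second kind -/
theorem bb3 (hLA : S_LA) (hHEX : S_HEX) (hPL3 : S_PL3) (hB : S_BAS) (h : Conf N u)
    {i k : Fin n} (ha : Arr N u i k) {l1 l2 l3 : Fin n} (h12 : l1 ≠ l2) (h13 : l1 ≠ l3)
    (h23 : l2 ≠ l3) (hi1 : l1 ≠ i) (hi2 : l2 ≠ i) (hi3 : l3 ≠ i) {x1 y1 x2 y2 x3 y3 : V}
    (f1 : L1 N u i k l1 x1 y1) (f2 : L1 N u i k l2 x2 y2) (f3 : L1 N u i k l3 x3 y3) : False := by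
  have he := h.nrm i
  by_cases hall : N l1 = N l2 ∧ N l1 = N l3
  · obtain ⟨n12, n13⟩ := hall
    -- the lines of `y` agree
    have hy2 : y2 = y1 ∨ y2 = -y1 := by
      rcases bb1 hLA hB h ha h12 hi1 hi2 f1 f2 with ⟨-, -, h1⟩ | ⟨h1, -⟩
      · exact h1
      · exact absurd n12 h1
    have hy3 : y3 = y1 ∨ y3 = -y1 := by
      rcases bb1 hLA hB h ha h13 hi1 hi3 f1 f3 with ⟨-, -, h1⟩ | ⟨h1, -⟩
      · exact h1
      · exact absurd n13 h1
    have hne : x1 - inner ℝ x1 y1 • y1 ≠ 0 := by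
      intro h0
      have h1 : x1 = inner ℝ x1 y1 • y1 := sub_eq_zero.1 h0
      have h2 : x1 = 0 := by
        refine arr_zero h ha f1.1.xi ?_ f1.1.ex
        rw [h1]
        exact Submodule.smul_mem _ _ f1.1.yk
      have h3 := f1.1.xn
      rw [h2, norm_zero] at h3
      exact zero_ne_one h3
    obtain ⟨t, -, -, -, ht⟩ := onb3 he f1.1.xn f1.1.yn f1.1.ex f1.1.ey hne
    have w1 := ht (u l1) (f1.1.sp (h.mem l1))
    have w2 := ht (u l2) (f1.1.sp (n12 ▸ h.mem l2))
    have w3 := ht (u l3) (f1.1.sp (n13 ▸ h.mem l3))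
    have c := fun (a b : Fin n) (hw : u a = inner ℝ (u a) (u i) • u i + inner ℝ (u a) y1 • y1 +
      inner ℝ (u a) t • t) => inner_onb3 (w' := u b) hw
    obtain ⟨a1, b1, -, -⟩ := l1_num hB h hi1 f1
    obtain ⟨a2, b2, -, -⟩ := l1_num hB h hi2 f2
    obtain ⟨a3, b3, -, -⟩ := l1_num hB h hi3 f3
    have b2' : |inner ℝ (u l2) y1| < 1 / 4 := by
      rcases hy2 with h1 | h1
      · rwa [h1] at b2
      · rwa [h1, inner_neg_right, abs_neg] at b2
    have b3' : |inner ℝ (u l3) y1| < 1 / 4 := by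
      rcases hy3 with h1 | h1
      · rwa [h1] at b3
      · rwa [h1, inner_neg_right, abs_neg] at b3
    have q : ∀ a : Fin n, (u a = inner ℝ (u a) (u i) • u i + inner ℝ (u a) y1 • y1 +
        inner ℝ (u a) t • t) → inner ℝ (u a) (u i) ^ 2 + inner ℝ (u a) y1 ^ 2 +
        inner ℝ (u a) t ^ 2 = 1 := by
      intro a hw
      have h1 := c a a hw
      rw [real_inner_self_eq_norm_sq, h.nrm a] at h1
      linarith
    have s12 := sign_lemma _ _ _ _ _ _ (q l1 w1) (q l2 w2) a1 a2 b1 b2'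
      (by rw [← c l1 l2 w1]; exact half hB h h12)
    have s13 := sign_lemma _ _ _ _ _ _ (q l1 w1) (q l3 w3) a1 a3 b1 b3'
      (by rw [← c l1 l3 w1]; exact half hB h h13)
    have s23 := sign_lemma _ _ _ _ _ _ (q l2 w2) (q l3 w3) a2 a3 b2' b3'
      (by rw [← c l2 l3 w2]; exact half hB h h23)
    generalize inner ℝ (u l1) (u i) = α1 at *
    generalize inner ℝ (u l2) (u i) = α2 at *
    generalize inner ℝ (u l3) (u i) = α3 at *
    generalize inner ℝ (u l1) t = ζ1 at *
    generalize inner ℝ (u l2) t = ζ2 at *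
    generalize inner ℝ (u l3) t = ζ3 at *
    have p1 := mul_pos_of_neg_of_neg s12 s13
    have p2 := mul_neg_of_pos_of_neg p1 s23
    have p3 : α1 * α2 * (ζ1 * ζ2) * (α1 * α3 * (ζ1 * ζ3)) * (α2 * α3 * (ζ2 * ζ3)) =
        (α1 * α2 * α3 * (ζ1 * ζ2 * ζ3)) ^ 2 := by ring
    rw [p3] at p2
    have := sq_nonneg (α1 * α2 * α3 * (ζ1 * ζ2 * ζ3))
    linarith
  · -- all in the plane `<e, x1>`
    have hx2 : x2 = x1 ∨ x2 = -x1 := by
      rcases bb1 hLA hB h ha h12 hi1 hi2 f1 f2 with ⟨-, h1, -⟩ | ⟨-, h1, -⟩ <;> exact h1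
    have hx3 : x3 = x1 ∨ x3 = -x1 := by
      rcases bb1 hLA hB h ha h13 hi1 hi3 f1 f3 with ⟨-, h1, -⟩ | ⟨-, h1, -⟩ <;> exact h1
    have inpl : ∀ (l : Fin n) (x y : V), l ≠ i → L1 N u i k l x y → (x = x1 ∨ x = -x1) →
        inner ℝ (u l) (u i) ^ 2 + inner ℝ (u l) x ^ 2 = 1 →
        u l ∈ Submodule.span ℝ {u i, x1} := by
      intro l x y hli fl hx heq
      refine span_neg_pair hx ?_
      rw [(bessel2 he fl.1.xn fl.1.ex (h.nrm l)).2 heq]
      exact Submodule.add_mem _ (Submodule.smul_mem _ _ (Submodule.subset_span (by simp)))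
        (Submodule.smul_mem _ _ (Submodule.subset_span (by simp)))
    have m123 : u l1 ∈ Submodule.span ℝ {u i, x1} ∧ u l2 ∈ Submodule.span ℝ {u i, x1} ∧
        u l3 ∈ Submodule.span ℝ {u i, x1} := by
      by_cases n12 : N l1 = N l2
      · have n13 : N l1 ≠ N l3 := fun h1 => hall ⟨n12, h1⟩
        have n23 : N l2 ≠ N l3 := fun h1 => n13 (n12.trans h1)
        obtain ⟨r1, r3⟩ := bb2 hLA hHEX hB h ha h13 hi1 hi3 f1 f3 n13
        obtain ⟨r2, -⟩ := bb2 hLA hHEX hB h ha h23 hi2 hi3 f2 f3 n23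
        exact ⟨inpl l1 x1 y1 hi1 f1 (Or.inl rfl) r1, inpl l2 x2 y2 hi2 f2 hx2 r2,
          inpl l3 x3 y3 hi3 f3 hx3 r3⟩
      · obtain ⟨r1, r2⟩ := bb2 hLA hHEX hB h ha h12 hi1 hi2 f1 f2 n12
        refine ⟨inpl l1 x1 y1 hi1 f1 (Or.inl rfl) r1, inpl l2 x2 y2 hi2 f2 hx2 r2, ?_⟩
        by_cases n13 : N l1 = N l3
        · have n23 : N l2 ≠ N l3 := fun h1 => n12 (n13.trans h1.symm)
          obtain ⟨-, r3⟩ := bb2 hLA hHEX hB h ha h23 hi2 hi3 f2 f3 n23
          exact inpl l3 x3 y3 hi3 f3 hx3 r3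
        · obtain ⟨-, r3⟩ := bb2 hLA hHEX hB h ha h13 hi1 hi3 f1 f3 n13
          exact inpl l3 x3 y3 hi3 f3 hx3 r3
    obtain ⟨m1, m2, m3⟩ := m123
    have hc := hPL3 V (Fin n) (Submodule.span ℝ {u i, x1}) u {i, l1, l2, l3}
      (finrank_pair he f1.1.xn f1.1.ex)
      (by
        intro j hj
        simp only [Finset.mem_insert, Finset.mem_singleton] at hj
        rcases hj with rfl | rfl | rfl | rfl
        · exact Submodule.subset_span (by simp)
        · exact m1
        · exact m2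
        · exact m3)
      (fun j _ => h.nrm j) (fun j _ j' _ hjj => half hB h hjj)
    have hcard : ({i, l1, l2, l3} : Finset (Fin n)).card = 4 := by
      rw [Finset.card_insert_of_notMem, Finset.card_insert_of_notMem,
        Finset.card_insert_of_notMem, Finset.card_singleton]
      · simpa using h23
      · simp [h12, h13]
      · simp [hi1.symm, hi2.symm, hi3.symm]
    omega

end

end Pool.Agent.Helper29.CY.One
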