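import Pool.Agent.Helper29.CY.OneC

/-!
# Project CY, packet ONE, part 4: the count
-/

set_option autoImplicit false

open Module

namespace Pool.Agent.Helper29.CY.One

open Pool.Agent.Helper29.CY

section

variable {n : ℕ} {V : Type} [NormedAddCommGroup V] [InnerProductSpace ℝ V]
  {N : Fin n → Submodule ℝ V} {u : Fin n → V}

/-- the plane of `W` orthogonal to a unit vector of `W` -/
theorem plane_in (W : Submodule ℝ V) (w : V) (hW : finrank ℝ W = 3) (hw : w ∈ W) (hn : ‖w‖ = 1) :
    ∃ E : Submodule ℝ V, finrank ℝ E = 2 ∧ ∀ z : V, z ∈ E ↔ (z ∈ W ∧ inner ℝ z w = 0) := by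
  have hfin : Module.Finite ℝ W := Module.finite_of_finrank_pos (by rw [hW]; norm_num)
  set w' : W := ⟨w, hw⟩ with hw'
  have hne : w' ≠ 0 := by
    intro h0
    have : w = 0 := congrArg Subtype.val h0
    rw [this, norm_zero] at hn
    exact zero_ne_one hn
  set K : Submodule ℝ W := (Submodule.span ℝ {w'})ᗮ with hK
  have h1 := (Submodule.span ℝ {w'}).finrank_add_finrank_orthogonal
  rw [finrank_span_singleton hne, hW] at h1
  refine ⟨K.map W.subtype, ?_, ?_⟩
  · rw [Submodule.finrank_map_subtype_eq]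
    show finrank ℝ (Submodule.span ℝ {w'})ᗮ = 2
    omega
  · intro z
    rw [Submodule.mem_map]
    constructor
    · rintro ⟨v, hv, rfl⟩
      refine ⟨v.2, ?_⟩
      rw [hK, Submodule.mem_orthogonal_singleton_iff_inner_left] at hv
      exact hv
    · rintro ⟨hz, hzw⟩
      refine ⟨⟨z, hz⟩, ?_, rfl⟩
      rw [hK, Submodule.mem_orthogonal_singleton_iff_inner_left]
      exact hzw

theorem two_perp (hLA : S_LA) {E : Submodule ℝ V} (hE : finrank ℝ E = 2) {e w z : V}
    (he : e ∈ E) (hw : w ∈ E) (hz : z ∈ E) (en : ‖e‖ = 1) (wn : ‖w‖ = 1) (zn : ‖z‖ = 1)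
    (hew : inner ℝ e w = 0) : inner ℝ z e ^ 2 + inner ℝ z w ^ 2 = 1 := by
  obtain ⟨y, hy, yn, hey, hs⟩ := hLA.2.2.1 V E e hE he en
  have h1 := parseval2 en yn hey zn (hs hz)
  rcases eq_or_neg en yn wn hey hew (hs hw) with h2 | h2
  · rw [h2]
    exact h1
  · rw [h2, inner_neg_right, neg_sq]
    exact h1

open Classical in
/-- **Packet ONE** -/
theorem one (hLA : S_LA) (hHEX : S_HEX) (hPL3 : S_PL3) (hB : S_BAS) (hNBR : S_NBR)
    (hELL : S_ELL) : S_ONE := by
  intro n V _ _ N u h hout i k ha
  have he := h.nrm i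
  have hik := ha.1
  obtain ⟨TGT, SRC, MEM, INN, OUT⟩ := hNBR n V N u h
  set A : Finset (Fin n) := Finset.univ.filter fun l => l ≠ i ∧ l ≠ k ∧
    ((∃ x y, L0 N u i k l x y) ∨ Arr N u l k) with hA
  set B : Finset (Fin n) := Finset.univ.filter fun l => l ≠ i ∧ l ≠ k ∧ NR N l i ∧ NR N l k ∧
    ∃ x y, L1 N u i k l x y with hBd
  set C : Finset (Fin n) := Finset.univ.filter fun l => Arr N u l i ∧ NR N l k with hC
  set D : Finset (Fin n) := Finset.univ.filter fun l => Arr N u k l with hD
  have mA : ∀ l, l ∈ A ↔ l ≠ i ∧ l ≠ k ∧ ((∃ x y, L0 N u i k l x y) ∨ Arr N u l k) := by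
    intro l; simp [hA]
  have mB : ∀ l, l ∈ B ↔ l ≠ i ∧ l ≠ k ∧ NR N l i ∧ NR N l k ∧ ∃ x y, L1 N u i k l x y := by
    intro l; simp [hBd]
  have mC : ∀ l, l ∈ C ↔ Arr N u l i ∧ NR N l k := by
    intro l; simp [hC]
  have mD : ∀ l, l ∈ D ↔ Arr N u k l := by
    intro l; simp [hD]
  -- the cover
  have hcov : (Finset.univ : Finset (Fin n)) ⊆ ({i, k} : Finset (Fin n)) ∪ A ∪ B ∪ C ∪ D := by
    intro l _
    simp only [Finset.mem_union, Finset.mem_insert, Finset.mem_singleton, mA, mB, mC, mD]
    by_cases hli : l = i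
    · simp [hli]
    by_cases hlk : l = k
    · simp [hlk]
    rcases tri hB h hli with h1 | h1 | h1
    · rcases tri hB h hlk with h2 | h2 | h2
      · obtain ⟨x, y, h3 | h3⟩ := hELL n V N u h i k l ha h1 h2
        · left; left; left; right
          exact ⟨hli, hlk, Or.inl ⟨x, y, h3⟩⟩
        · left; left; right
          exact ⟨hli, hlk, h1, h2, x, y, h3⟩
      · left; left; left; right
        exact ⟨hli, hlk, Or.inr h2⟩
      · right
        exact h2
    · rcases tri hB h hlk with h2 | h2 | h2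
      · left; right
        exact ⟨h1, h2⟩
      · exact absurd (NR_symm (SRC i l k ha h2 (Ne.symm hli))) (exc1 hB h h1)
      · right
        exact h2
    · exact absurd (hout i l k h1 ha) hlk
  -- the sizes
  have cD : D.card ≤ 1 := by
    rw [Finset.card_le_one]
    intro a ha' b hb'
    rw [mD] at ha' hb'
    exact hout k a b ha' hb'
  have cC : C.card ≤ 1 := by
    rw [Finset.card_le_one]
    intro a ha' b hb'
    rw [mC] at ha' hb'
    by_contra hab
    exact INN i k a b ha ha'.1 hb'.1 hab ha'.2 hb'.2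
  obtain ⟨E, hE, mE⟩ := plane_in (N k) (u k) (h.dim k) (h.mem k) (h.nrm k)
  have eE : u i ∈ E := (mE _).2 ⟨ha.2.1, ha.2.2.1⟩
  have AE : ∀ l ∈ A, u l ∈ E := by
    intro l hl
    rw [mA] at hl
    rw [mE]
    rcases hl.2.2 with ⟨x, y, fr, h1, h2⟩ | h1
    · constructor
      · rw [h2]
        exact Submodule.add_mem _ (Submodule.smul_mem _ _ ha.2.1) (Submodule.smul_mem _ _ fr.yk)
      · have h1' : inner ℝ y (u k) = 0 := by rw [real_inner_comm]; exact h1
        rw [h2, inner_add_left, real_inner_smul_left, real_inner_smul_left, ha.2.2.1, h1']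
        ring
    · exact ⟨h1.2.1, h1.2.2.1⟩
  have cA : A.card ≤ 2 := by
    have hiA : i ∉ A := by
      intro h1
      rw [mA] at h1
      exact h1.1 rfl
    have h1 := hPL3 V (Fin n) E u (insert i A) hE
      (by
        intro j hj
        rcases Finset.mem_insert.1 hj with rfl | hj
        · exact eE
        · exact AE j hj)
      (fun j _ => h.nrm j) (fun j _ j' _ hjj => half hB h hjj)
    rw [Finset.card_insert_of_notMem hiA] at h1
    omega
  have cB : B.card ≤ 2 := by
    by_contra hcon
    push Not at hcon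
    obtain ⟨l1, m1, l2, m2, l3, m3, h12, h13, h23⟩ := Finset.two_lt_card.1 hcon
    rw [mB] at m1 m2 m3
    obtain ⟨i1, -, -, -, x1, y1, f1⟩ := m1
    obtain ⟨i2, -, -, -, x2, y2, f2⟩ := m2
    obtain ⟨i3, -, -, -, x3, y3, f3⟩ := m3
    exact bb3 hLA hHEX hPL3 hB h ha h12 h13 h23 i1 i2 i3 f1 f2 f3
  -- consequences of `B ≠ ∅`
  have cA' : B.Nonempty → A.card ≤ 1 := by
    rintro ⟨l, hl⟩
    rw [mB] at hl
    obtain ⟨hli, hlk, hnr, hnrk, x, y, fl⟩ := hl
    rw [Finset.card_le_one]
    intro a ha1 b hb1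
    by_contra hab
    have key : ∀ a b : Fin n, a ∈ A → b ∈ A → a ≠ b → (∃ x y, L0 N u i k a x y) → False := by
      intro a b ha1 hb1 hab ⟨x0, y0, h0⟩
      have ha2 := (mA a).1 ha1
      have hb2 := (mA b).1 hb1
      obtain ⟨h3, -⟩ := fact4 hLA hHEX hB h ha fl h0 hli ha2.1
      have h4 := two_perp hLA hE eE (AE a ha1) (AE b hb1) he (h.nrm a) (h.nrm b)
        (by rw [real_inner_comm]; exact h3)
      have h5 := half_sq hB h hb2.1
      have h6 := half_sq hB h hab.symm
      linarith
    have ha2 := (mA a).1 ha1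
    have hb2 := (mA b).1 hb1
    rcases ha2.2.2 with h0 | h0
    · exact key a b ha1 hb1 hab h0
    · rcases hb2.2.2 with h0' | h0'
      · exact key b a hb1 ha1 (Ne.symm hab) h0'
      · exact hab (hout l a b (fact2 hB hNBR h ha fl hli hnrk h0 ha2.1)
          (fact2 hB hNBR h ha fl hli hnrk h0' hb2.1))
  have cAC : 2 ≤ B.card → A.card + C.card ≤ 1 := by
    intro hcB
    obtain ⟨l, hl, l', hl', hll⟩ := Finset.one_lt_card.1 (by omega : 1 < B.card)
    have hBn : B.Nonempty := ⟨l, hl⟩
    have hA1 := cA' hBn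
    rw [mB] at hl hl'
    obtain ⟨hli, hlk, hnr, hnrk, x, y, fl⟩ := hl
    obtain ⟨hli', hlk', hnr', hnrk', x', y', fl'⟩ := hl'
    by_contra hcon
    push Not at hcon
    have hAn : A.Nonempty := by
      rw [← Finset.card_pos]
      omega
    have hCn : C.Nonempty := by
      rw [← Finset.card_pos]
      omega
    obtain ⟨a, ha1⟩ := hAn
    obtain ⟨c, hc1⟩ := hCn
    have ha2 := (mA a).1 ha1
    rw [mC] at hc1
    obtain ⟨hci, hck⟩ := hc1
    rcases ha2.2.2 with ⟨x0, y0, h0⟩ | h0
    · -- the member `a` is of the first kind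
      have claim : ∀ (m : Fin n) (x y : V), m ≠ i → NR N m i → L1 N u i k m x y →
          Arr N u m c := by
        intro m x y hmi hnrm fm
        obtain ⟨-, h4⟩ := fact4 hLA hHEX hB h ha fm h0 hmi ha2.1
        have hmc : m ≠ c := by
          rintro rfl
          exact exc1 hB h hci hnrm
        have contra : u c ∈ N m → False := by
          intro h5
          have h6 := fm.1.li ⟨h5, hci.2.1⟩
          have h7 : inner ℝ (u i) (u c) = 0 := by
            rw [real_inner_comm]
            exact hci.2.2.1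
          have h8 := parseval2 he fm.1.xn fm.1.ex (h.nrm m) h4
          have h9 := half_sq hB h hmi
          have h10 := half_sq hB h hmc
          rcases eq_or_neg he fm.1.xn (h.nrm c) fm.1.ex h7 h6 with h11 | h11
          · rw [h11] at h10
            linarith
          · rw [h11, inner_neg_right, neg_sq] at h10
            linarith
        rcases tri hB h hmc with h5 | h5 | h5
        · exact (contra (MEM c i m hci h5 hnrm)).elim
        · exact h5
        · exact (contra h5.2.1).elim
      have g1 := claim l x y hli hnr fl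
      have g2 := claim l' x' y' hli' hnr' fl'
      exact INN c i l l' hci g1 g2 hll hnr hnr'
    · -- `a -> k`
      have g1 := fact2 hB hNBR h ha fl hli hnrk h0 ha2.1
      have g2 := fact2 hB hNBR h ha fl' hli' hnrk' h0 ha2.1
      exact INN a k l l' h0 g1 g2 hll hnrk hnrk'
  -- the total
  have htot : n ≤ 2 + A.card + B.card + C.card + D.card := by
    have h1 := Finset.card_le_card hcov
    rw [Finset.card_univ, Fintype.card_fin] at h1
    have h2 := Finset.card_union_le ({i, k} ∪ A ∪ B ∪ C : Finset (Fin n)) D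
    have h3 := Finset.card_union_le ({i, k} ∪ A ∪ B : Finset (Fin n)) C
    have h4 := Finset.card_union_le ({i, k} ∪ A : Finset (Fin n)) B
    have h5 := Finset.card_union_le ({i, k} : Finset (Fin n)) A
    have h6 : ({i, k} : Finset (Fin n)).card ≤ 2 := Finset.card_le_two
    omega
  by_cases hBn : B.Nonempty
  · have h1 := cA' hBn
    by_cases h2 : 2 ≤ B.card
    · have h3 := cAC h2
      omega
    · omega
  · have : B.card = 0 := by
      rw [Finset.card_eq_zero]
      exact Finset.not_nonempty_iff_eq_empty.1 hBn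
    omega

end

end Pool.Agent.Helper29.CY.One
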